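import Pool.Agent.Lib_MP_909c8f.Defs

namespace MP909
open Function Topology

/-- boxes of cones form a base of the topology of `Fin j → Cn`.
PROOF. The sets `{y' | ∀ i, Agr (y' i) (y i) N}` are open (finite intersections of coordinate
conditions) and form a neighbourhood base at `y`: a neighbourhood of `y` in `Fin j → (ℕ → Bool)`
contains a finite intersection of coordinate conditions `y' i k = y i k` with `k < N`
(e.g. `mem_nhds_pi`-type lemmas, `isOpen_pi_iff`, `Filter.mem_pi`, or via the metric-free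
argument: `nhds_pi`, `nhds_discrete`). -/
theorem box_nhds {j : ℕ} (y : Fin j → Cn) (U : Set (Fin j → Cn)) :
    U ∈ 𝓝 y ↔ ∃ N, ∀ y' : Fin j → Cn, (∀ i, Agr (y' i) (y i) N) → y' ∈ U := by
  have h1 : ∀ (c : Cn) (V : Set Cn), V ∈ 𝓝 c → ∃ N, ∀ c' : Cn, Agr c' c N → c' ∈ V := by
    intro c V hV
    rw [nhds_pi, Filter.mem_pi] at hV
    obtain ⟨I, hI, t, ht, hs⟩ := hV
    obtain ⟨N, hN⟩ := hI.bddAbove
    refine ⟨N + 1, fun c' hc' => hs ?_⟩
    intro k hk
    rw [hc' k (Nat.lt_succ_of_le (hN hk))]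
    exact mem_of_mem_nhds (ht k)
  constructor
  · intro hU
    rw [nhds_pi, Filter.mem_pi] at hU
    obtain ⟨I, hI, t, ht, hs⟩ := hU
    choose f hf using fun i => h1 (y i) (t i) (ht i)
    refine ⟨Finset.univ.sup f, fun y' hy' => hs ?_⟩
    intro i hi
    exact hf i (y' i) ((hy' i).mono (Finset.le_sup (Finset.mem_univ i)))
  · rintro ⟨N, hN⟩
    have ho : IsOpen {y' : Fin j → Cn | ∀ i, Agr (y' i) (y i) N} := by
      have he : {y' : Fin j → Cn | ∀ i, Agr (y' i) (y i) N} =
          ⋂ i : Fin j, ⋂ k ∈ Finset.range N, {y' : Fin j → Cn | y' i k = y i k} := by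
        ext y'
        simp only [Set.mem_setOf_eq, Set.mem_iInter, Finset.mem_range]
        rfl
      rw [he]
      refine isOpen_iInter_of_finite fun i => isOpen_biInter_finset fun k _ => ?_
      have hc : Continuous fun y' : Fin j → Cn => y' i k :=
        (continuous_apply k).comp (continuous_apply i)
      exact (isOpen_discrete ({y i k} : Set Bool)).preimage hc
    exact Filter.mem_of_superset (ho.mem_nhds fun i => Agr.refl _ _) hN

/-- PROOF. `closure E ∈ 𝓝 y`, so `box_nhds` gives `N` such that the box of `y` of level `N` is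
contained in `closure E`.  For `y'` in this box and `M`, the box of `y'` of level `M` is a
neighbourhood of `y' ∈ closure E`, so it meets `E` (`mem_closure_iff_nhds`). -/
theorem box {j : ℕ} (E : Set (Fin j → Cn)) (y : Fin j → Cn) (hy : y ∈ interior (closure E)) :
    ∃ N, ∀ y' : Fin j → Cn, (∀ i, Agr (y' i) (y i) N) → ∀ M, ∃ e ∈ E, ∀ i, Agr (e i) (y' i) M := by
  obtain ⟨N, hN⟩ := (box_nhds y (closure E)).1 (mem_interior_iff_mem_nhds.1 hy)
  refine ⟨N, fun y' hy' M => ?_⟩
  have hV : {z : Fin j → Cn | ∀ i, Agr (z i) (y' i) M} ∈ 𝓝 y' :=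
    (box_nhds y' _).2 ⟨M, fun z hz => hz⟩
  obtain ⟨e, he1, he2⟩ := mem_closure_iff_nhds.1 (hN y' hy') _ hV
  exact ⟨e, he2, he1⟩

end MP909
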