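import Pool.Agent.Lib_MP_909c8f.Defs

namespace MP909
open Function Topology
variable {ι : Type} (x : ι → Cn)

/-- Every compatible branch can be replaced by a branch of the form `x i` in the same cone.
PROOF. If `d = x a` for some `a` take `i = a`.  Otherwise `free_cone (sup p) d` gives `M` such that
no support point of `p` (`mem_sup`) is in the cone of `d` of level `M`; we may take `M ≥ N`
(`Agr.mono`).  Density gives `i` with `Agr (x i) d M`.  `Cp x p (x i) N` by `Cp_glue` (with
`c := d`, `c' := x i`, level `M`) and `Cp_of_free` at level `M` (no support point of `p` is in the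
cone of `x i` of level `M`). -/
theorem exists_index (hd : ∀ c n, ∃ i, Agr (x i) c n) {p : PG x} {d : Cn} {N : ℕ}
    (h : Cp x p d N) : ∃ i, Agr (x i) d N ∧ Cp x p (x i) N := by
  by_cases hex : ∃ a, x a = d
  · obtain ⟨a, ha⟩ := hex
    refine ⟨a, ?_, ?_⟩
    · rw [ha]
      exact Agr.refl d N
    · rw [ha]
      exact h
  · obtain ⟨M0, hM0⟩ := free_cone (sup p) d (fun i _ hi => hex ⟨i, hi⟩)
    obtain ⟨i, hi⟩ := hd d (max M0 N)
    refine ⟨i, hi.mono (le_max_right _ _), ?_⟩
    refine Cp_glue x hi.symm (fun n hn _ => h n hn) (Cp_of_free x ?_)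
    intro b j hj hA
    exact absurd ((hA.trans hi).mono (le_max_left _ _)) (hM0 j (mem_sup.2 ⟨b, hj⟩))

/-- The existence of a compatible branch is a finite condition.
PROOF. `sep hx (sup p)` gives `M0` such that every cone of level `M0` contains at most one support
point.  Let `M ≥ M0` and `d`.  If some `i ∈ sup p` has `Agr (x i) d M` take `d' = x i`: all the
support points in the cone of `x i` of level `M` are equal to `x i`, so `Cp x p d' M` by
`Cp_of_free`.  Otherwise take `d' = d`; again `Cp_of_free` (no support point in the cone). -/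
theorem exists_branch (hx : Injective x) (p : PG x) :
    ∃ M0, ∀ M, M0 ≤ M → ∀ d, ∃ d', Agr d d' M ∧ Cp x p d' M := by
  obtain ⟨M0, hM0⟩ := sep hx (sup p)
  refine ⟨M0, fun M hM d => ?_⟩
  by_cases hex : ∃ i ∈ sup p, Agr (x i) d M
  · obtain ⟨i, hi, hA⟩ := hex
    refine ⟨x i, hA.symm, Cp_of_free x ?_⟩
    intro b j hj hAj
    rw [hM0 j (mem_sup.2 ⟨b, hj⟩) i hi (hAj.mono hM)]
  · refine ⟨d, Agr.refl d M, Cp_of_free x ?_⟩
    intro b j hj hAj
    exact absurd ⟨j, mem_sup.2 ⟨b, hj⟩, hAj⟩ hex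

/-- PROOF.  Open: let `p` be in the set with witness `d`; `exists_index` gives `i` with
`Agr (x i) d N`, `Cp x p (x i) N`.  For `k ∈ L x {i} 0` we have `Cp x k (x i) N` (`Cp_mono`), so
`p + k` is in the set with witness `x i`; use `isOpen_iff_mem_nhds`, `mem_nhds`.
Closed: let `p` be outside the set, take `M0` from `exists_branch`, `M = max M0 N`.  Let
`k ∈ L x ∅ M` and suppose `p + k` is in the set with witness `d`.  For `N ≤ n < M` we have
`Cq x (p + k) d n` and `Cq x k d n` (`Cq_of_low`), so `Cq x p d n` (`Cq_sub`).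
Take `d'` with `Agr d d' M`, `Cp x p d' M`.  `Cp_glue` gives `Cp x p d' N` and `Agr d' c N`, so
that `p` is in the set, contradiction. -/
theorem isClopen_ex (hx : Injective x) (hd : ∀ c n, ∃ i, Agr (x i) c n) (c : Cn) (N : ℕ) :
    IsClopen {p : PG x | ∃ d, Agr d c N ∧ Cp x p d N} := by
  constructor
  · rw [← isOpen_compl_iff, isOpen_iff_mem_nhds]
    intro p hp
    obtain ⟨M0, hM0⟩ := exists_branch x hx p
    rw [mem_nhds]
    refine ⟨∅, max M0 N, fun k hk hmem => hp ?_⟩
    obtain ⟨d, hdA, hdC⟩ := hmem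
    obtain ⟨d', hA', hC'⟩ := hM0 (max M0 N) (le_max_left _ _) d
    refine ⟨d', (hA'.symm.mono (le_max_right _ _)).trans hdA, Cp_glue x hA' ?_ hC'⟩
    intro n hn hnM
    have h1 := Cq_sub x (hdC n hn) (Cq_of_low x hk.1 hnM)
    rwa [add_sub_cancel_right] at h1
  · rw [isOpen_iff_mem_nhds]
    rintro p ⟨d, hdA, hdC⟩
    obtain ⟨i, hi, hC⟩ := exists_index x hd hdC
    rw [mem_nhds]
    refine ⟨{i}, 0, fun k hk => ⟨x i, hi.trans hdA, ?_⟩⟩
    exact Cp_add x hC (Cp_mono x (Nat.zero_le N) (hk.2 i (Finset.mem_singleton_self i)))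

end MP909
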