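import Pool.Agent.Lib_MP_909c8f.Defs

namespace MP909
open Function Topology
variable {ι : Type} (x : ι → Cn)

theorem isOpen_pa_pred (b : Bool) (c : Cn) (n : ℕ) (P : ZMod 2 → Prop) :
    IsOpen {p : PG x | P (pa x b c n p)} := by
  rw [isOpen_iff_mem_nhds]
  intro p hp
  rw [mem_nhds]
  refine ⟨∅, n, fun k hk => ?_⟩
  have h0 : pa x b c n k = 0 := hk.1 b c n le_rfl
  change P (pa x b c n (p + k))
  rw [map_add, h0, add_zero]
  exact hp

/-- PROOF. `{p | pa x b c n p = e}`: every point has the neighbourhood `p + L x ∅ n` on which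
`pa x b c n` is constant; use `isOpen_iff_mem_nhds` and `mem_nhds` for the set and for its
complement. -/
theorem isClopen_pa (b : Bool) (c : Cn) (n : ℕ) (e : ZMod 2) :
    IsClopen {p : PG x | pa x b c n p = e} := by
  refine ⟨⟨?_⟩, isOpen_pa_pred x b c n (fun z => z = e)⟩
  exact isOpen_pa_pred x b c n (fun z => ¬ (z = e))

theorem isOpen_Cp_pred (u : PG x) (i : ι) (N : ℕ) (P : Prop → Prop) :
    IsOpen {p : PG x | P (Cp x (p - u) (x i) N)} := by
  rw [isOpen_iff_mem_nhds]
  intro p hp
  rw [mem_nhds]
  refine ⟨{i}, 0, fun k hk => ?_⟩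
  have h0 : Cp x k (x i) N := Cp_mono x (Nat.zero_le N) (hk.2 i (Finset.mem_singleton_self i))
  have h1 : Cp x (p + k - u) (x i) N ↔ Cp x (p - u) (x i) N := by
    constructor
    · intro h
      have := Cp_sub x h h0
      have e : p + k - u - k = p - u := by abel
      rwa [e] at this
    · intro h
      have := Cp_add x h h0
      have e : p - u + k = p + k - u := by abel
      rwa [e] at this
  change P (Cp x (p + k - u) (x i) N)
  rw [propext h1]
  exact hp

/-- PROOF. If `k ∈ L x {i} 0` then `Cp x k (x i) 0`, hence `Cp x k (x i) N` (`Cp_mono`), so that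
`Cp x (p + k - u) (x i) N ↔ Cp x (p - u) (x i) N` (`Cp_add`, `Cp_sub`); so both the set and its
complement are open by `mem_nhds`. -/
theorem isClopen_Cp (u : PG x) (i : ι) (N : ℕ) : IsClopen {p : PG x | Cp x (p - u) (x i) N} := by
  refine ⟨⟨?_⟩, isOpen_Cp_pred x u i N (fun z => z)⟩
  exact isOpen_Cp_pred x u i N (fun z => ¬ z)

/-- the parities of `pr x b p` at levels `≥ 1`.
PROOF. `pa x a c n` of `pr x b p`: the support points of `pr x b p` have first bit `b`
(`cd_pr`); for `n ≥ 1` the cone of `c` of level `n` only contains points with first bit `c 0`.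
If `c 0 ≠ b` use `pa_zero_of`.  If `c 0 = b` then `p - pr x b p` has no support point in the
cone of `c` of level `n`. -/
theorem pa_pr (b a : Bool) (c : Cn) (n : ℕ) (hn : 1 ≤ n) (p : PG x) :
    pa x a c n (pr x b p) = if c 0 = b then pa x a c n p else 0 := by
  split_ifs with hb
  · have h1 : pa x a c n (p - pr x b p) = 0 := by
      apply pa_zero_of
      intro i hi hA
      apply hi
      rw [map_sub, Finsupp.sub_apply, cd_pr, if_pos ((hA 0 hn).trans hb), sub_self]
    rw [map_sub, sub_eq_zero] at h1
    exact h1.symm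
  · apply pa_zero_of
    intro i hi hA
    apply hi
    rw [cd_pr, if_neg]
    intro h
    exact hb ((hA 0 hn).symm.trans h)

theorem pr_mem_L (b : Bool) {R : Finset ι} {m : ℕ} {k : PG x} (hk : k ∈ L x R (m + 1)) :
    pr x b k ∈ L x R (m + 1) := by
  obtain ⟨h1, h2⟩ := hk
  have h3 : ∀ a c, pa x a c (m + 1) (pr x b k) = 0 := by
    intro a c
    rw [pa_pr x b a c (m + 1) (Nat.le_add_left 1 m)]
    split_ifs
    · exact h1 a c (m + 1) le_rfl
    · rfl
  have h4 : ∀ a c n, n ≤ m + 1 → pa x a c n (pr x b k) = 0 := by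
    intro a c n hn
    exact pa_level x (h3 a) n hn c
  refine ⟨h4, fun i hi => ?_⟩
  intro n _
  rcases Nat.eq_zero_or_pos n with h0 | h0
  · subst h0
    exact Cq_of_low x h4 (Nat.succ_pos m)
  · have h5 : Cq x k (x i) n := h2 i hi n (Nat.zero_le n)
    unfold Cq at h5 ⊢
    rw [pa_pr x b _ _ n h0, pa_pr x b _ _ (n + 1) (Nat.le_add_left 1 n)]
    split_ifs
    · exact h5
    · rfl

/-- PROOF. By `mem_nhds` and additivity it suffices that `pr x b k ∈ L x R (m + 1)` whenever
`k ∈ L x R (m + 1)`.  Parities of level `1 ≤ n ≤ m+1` of `pr x b k` are `0` by `pa_pr`, and the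
parity of level `0` is the sum of two parities of level `1` (`pa_level`).  For `i ∈ R`:
`Cq x (pr x b k) (x i) n` for `n ≥ 1` follows from `pa_pr` and `Cq x k (x i) n` (or both sides are
zero), and for `n = 0` both sides vanish (levels `0, 1 ≤ m+1`). -/
theorem continuous_pr (b : Bool) : Continuous (pr x b) := by
  rw [continuous_iff_continuousAt]
  intro p U hU
  rw [mem_nhds] at hU
  obtain ⟨R, m, h⟩ := hU
  rw [Filter.mem_map, mem_nhds]
  refine ⟨R, m + 1, fun k hk => ?_⟩
  change pr x b (p + k) ∈ U
  rw [map_add]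
  exact h _ (L_mono x (Finset.Subset.refl R) (Nat.le_succ m) (pr_mem_L x b hk))

/-- elements are determined by their coordinates -/
theorem pg_ext {p q : PG x} (h : ∀ b i, cd x b p i = cd x b q i) : p = q := by
  funext b
  ext i
  exact h b i

/-- PROOF. For `p ≠ q` there are `b, i` with `cd x b (p - q) i ≠ 0`.  By `sep` applied to
`insert i (sup (p - q))` there is `M` such that the cone of `x i` of level `M` contains no other
support point of `p - q`, hence `pa x b (x i) M (p - q) = cd x b (p - q) i ≠ 0`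
(write `cd x b (p-q)` as `single i _ + erase`, `ph_single`, `ph_zero_of`).  Then the clopen set
`{r | pa x b (x i) M r = pa x b (x i) M p}` separates `p` and `q` (`isClopen_pa`). -/
theorem t2 (hx : Injective x) : T2Space (PG x) := by
  classical
  refine ⟨fun p q hpq => ?_⟩
  have h1 : ∃ b i, cd x b (p - q) i ≠ 0 := by
    by_contra hne
    push Not at hne
    apply hpq
    apply pg_ext
    intro b i
    have := hne b i
    rw [map_sub, Finsupp.sub_apply, sub_eq_zero] at this
    exact this
  obtain ⟨b, i, hbi⟩ := h1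
  obtain ⟨M, hM⟩ := sep hx (insert i (sup (p - q)))
  have h2 : pa x b (x i) M (p - q) = cd x b (p - q) i := by
    rw [pa_apply, ← Finsupp.single_add_erase i (cd x b (p - q)), map_add, ph_single,
      if_pos (Agr.refl _ _), ph_zero_of, add_zero]
    · simp
    · intro j hj hA
      have hji : j ≠ i := by
        intro h
        apply hj
        rw [h]
        exact Finsupp.erase_same
      rw [Finsupp.erase_ne hji] at hj
      exact hji (hM j (Finset.mem_insert_of_mem (mem_sup.2 ⟨b, hj⟩)) i
        (Finset.mem_insert_self _ _) hA)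
  have h3 : pa x b (x i) M q ≠ pa x b (x i) M p := by
    intro h
    apply hbi
    rw [← h2, map_sub, h, sub_self]
  have hc := isClopen_pa x b (x i) M (pa x b (x i) M p)
  refine ⟨_, _, hc.isOpen, hc.compl.isOpen, rfl, h3, disjoint_compl_right⟩

/-- PROOF. `pg_ext` and `cd_pr`. -/
theorem pr_add_pr (p : PG x) : pr x false p + pr x true p = p := by
  apply pg_ext
  intro b i
  rw [map_add, Finsupp.add_apply, cd_pr, cd_pr]
  cases x i 0 <;> simp

/-- PROOF. `pg_ext` and `cd_pr`. -/
theorem pr_pr (b b' : Bool) (p : PG x) : pr x b (pr x b' p) = if b = b' then pr x b p else 0 := by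
  apply pg_ext
  intro a i
  rw [cd_pr, cd_pr]
  by_cases hb : b = b'
  · subst hb
    rw [if_pos rfl, cd_pr]
    split_ifs <;> rfl
  · rw [if_neg hb, map_zero, Finsupp.zero_apply]
    split_ifs with h1 h2
    · exact absurd (h1.symm.trans h2) hb
    · rfl
    · rfl

end MP909
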