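import Pool.Agent.Lib_MP_909c8f.Tpl
import Pool.Agent.Lib_MP_909c8f.Top
import Pool.Agent.Lib_MP_909c8f.Ex

namespace MP909
open Function Topology
variable {ι : Type} {x : ι → Cn}

/-- the set `OS` is clopen.
PROOF. Finite intersections: parities: `e` only depends on the first `N` bits, so that the
condition for all `c` is the condition for the finitely many `c = extension by false of s`,
`s : Fin N → Bool` (`pa_congr`, `rs_eq`), `isClopen_pa`; then `isClopen_Cp` for `i ∈ R` and
`isClopen_ex` for `s ∈ S` (with `c` = extension of `s` by false).  `IsClopen.inter`,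
`isClopen_biInter_finset`, `isClopen_iInter_of_finite`. -/
theorem isClopen_OS (h : Good x) (N : ℕ) (e : (Fin N → Bool) → Bool → ZMod 2) (R : Finset ι)
    (u : PG x) (S : Finset (Fin N → Bool)) : IsClopen (OS x N e R u S) := by
  let xt : (Fin N → Bool) → Cn := fun s k => if h : k < N then s ⟨k, h⟩ else false
  have hxt : ∀ s, rs N (xt s) = s := by
    intro s
    funext i
    simp [rs, xt]
  have h1 : IsClopen {p : PG x | ∀ b c, pa x b c N p = e (rs N c) b} := by
    have : {p : PG x | ∀ b c, pa x b c N p = e (rs N c) b} =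
        ⋂ b : Bool, ⋂ s : Fin N → Bool, {p : PG x | pa x b (xt s) N p = e s b} := by
      ext p
      simp only [Set.mem_setOf_eq, Set.mem_iInter]
      constructor
      · intro hp b s
        rw [hp b (xt s), hxt]
      · intro hp b c
        rw [← hp b (rs N c)]
        apply pa_congr
        apply rs_eq.1
        rw [hxt]
    rw [this]
    exact isClopen_iInter_of_finite fun b => isClopen_iInter_of_finite fun s =>
      isClopen_pa x b (xt s) N (e s b)
  have h2 : IsClopen {p : PG x | ∀ i ∈ R, Cp x (p - u) (x i) N} := by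
    have : {p : PG x | ∀ i ∈ R, Cp x (p - u) (x i) N} =
        ⋂ i ∈ R, {p : PG x | Cp x (p - u) (x i) N} := by
      ext p
      simp only [Set.mem_setOf_eq, Set.mem_iInter]
    rw [this]
    exact isClopen_biInter_finset fun i _ => isClopen_Cp x u i N
  have h3 : IsClopen {p : PG x | ∀ s ∈ S, ∃ d, rs N d = s ∧ Cp x p d N} := by
    have : {p : PG x | ∀ s ∈ S, ∃ d, rs N d = s ∧ Cp x p d N} =
        ⋂ s ∈ S, {p : PG x | ∃ d, Agr d (xt s) N ∧ Cp x p d N} := by
      ext p
      simp only [Set.mem_setOf_eq, Set.mem_iInter]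
      constructor
      · intro hp s hs
        obtain ⟨d, hd, hd'⟩ := hp s hs
        refine ⟨d, rs_eq.1 ?_, hd'⟩
        rw [hxt, hd]
      · intro hp s hs
        obtain ⟨d, hd, hd'⟩ := hp s hs
        refine ⟨d, ?_, hd'⟩
        rw [rs_eq.2 hd, hxt]
    rw [this]
    exact isClopen_biInter_finset fun s _ => isClopen_ex x h.inj (fun c n => h.dense c n) (xt s) N
  have : OS x N e R u S = {p : PG x | ∀ b c, pa x b c N p = e (rs N c) b} ∩
      ({p : PG x | ∀ i ∈ R, Cp x (p - u) (x i) N} ∩
        {p : PG x | ∀ s ∈ S, ∃ d, rs N d = s ∧ Cp x p d N}) := rfl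
  rw [this]
  exact h1.inter (h2.inter h3)

end MP909
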