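import Pool.Agent.Lib_MP_909c8f.Tpl

namespace MP909
open Function Topology
variable {ι : Type} (x : ι → Cn)

/-- closing off (abstract).
PROOF. `Z 0 = ∅`, `Z (n+1) = Z n ∪ ⋃ T ∈ {T | base T ⊆ Z n}, S T`, all countable by induction
(`Set.Countable.biUnion`), increasing; `Z = ⋃ n, Z n`.  If `base T ⊆ Z` then, `base T` being
finite, `base T ⊆ Z n` for some `n` (directed union; e.g. `Set.Finite.induction_on` or
`Set.Finite.exists...`), so `S T ⊆ Z (n+1) ⊆ Z`. -/
theorem close_off {Tm : Type} (base S : Tm → Set ι) (hbase : ∀ T, (base T).Finite)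
    (hcount : ∀ Z : Set ι, Z.Countable → {T | base T ⊆ Z}.Countable)
    (hS : ∀ T, (S T).Countable) :
    ∃ Z : Set ι, Z.Countable ∧ ∀ T, base T ⊆ Z → S T ⊆ Z := by
  classical
  let Zs : ℕ → Set ι := fun n => Nat.rec ∅ (fun _ Zn => Zn ∪ ⋃ T ∈ {T | base T ⊆ Zn}, S T) n
  have hsucc : ∀ n, Zs (n + 1) = Zs n ∪ ⋃ T ∈ {T | base T ⊆ Zs n}, S T := fun n => rfl
  have hc : ∀ n, (Zs n).Countable := by
    intro n
    induction n with
    | zero => exact Set.countable_empty
    | succ n ih =>
      rw [hsucc]
      exact ih.union ((hcount _ ih).biUnion fun T _ => hS T)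
  have hmono : Monotone Zs := by
    apply monotone_nat_of_le_succ
    intro n
    rw [hsucc]
    exact Set.subset_union_left
  refine ⟨⋃ n, Zs n, Set.countable_iUnion hc, ?_⟩
  intro T hT
  have h1 : (((hbase T).toFinset : Finset ι) : Set ι) ⊆ ⋃ n, Zs n := by
    rw [(hbase T).coe_toFinset]; exact hT
  obtain ⟨n, hn⟩ := Directed.exists_mem_subset_of_finset_subset_biUnion
    (directed_of_isDirected_le hmono) h1
  rw [(hbase T).coe_toFinset] at hn
  intro z hz
  apply Set.mem_iUnion.2
  refine ⟨n + 1, ?_⟩
  rw [hsucc]
  exact Or.inr (Set.mem_biUnion (show T ∈ {T | base T ⊆ Zs n} from hn) hz)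

/-- PROOF. An element of `PG x` is determined by the supports of its two coordinates, because the
values are in `ZMod 2` (`v a ≠ 0 → v a = 1`).  So the set maps injectively into pairs of finite
subsets of the countable set `Z`; the finsets `R` with `↑R ⊆ Z` form a countable set
(they are the images of `Finset Z`, `Countable (Finset Z)`). -/
theorem countable_PG (Z : Set ι) (hZ : Z.Countable) :
    {u : PG x | ∀ b a, cd x b u a ≠ 0 → a ∈ Z}.Countable := by
  classical
  have hfin : {R : Finset ι | (↑R : Set ι) ⊆ Z}.Countable := by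
    have h := (Set.countable_ofPred_finite_subset hZ).preimage_of_injOn
      (f := fun R : Finset ι => (↑R : Set ι)) (Finset.coe_injective.injOn)
    refine h.mono ?_
    intro R hR
    exact ⟨R.finite_toSet, hR⟩
  have hprod := hfin.prod hfin
  refine (hprod.preimage_of_injOn
    (f := fun u : PG x => ((cd x false u).support, (cd x true u).support)) ?_).mono ?_
  · intro u _ v _ huv
    simp only [Prod.mk.injEq] at huv
    have key : ∀ b, (cd x b u).support = (cd x b v).support → cd x b u = cd x b v := by
      intro b hb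
      ext a
      have h01 : ∀ z : ZMod 2, z = 0 ∨ z = 1 := by decide
      have hm : a ∈ (cd x b u).support ↔ a ∈ (cd x b v).support := by rw [hb]
      rw [Finsupp.mem_support_iff, Finsupp.mem_support_iff] at hm
      rcases h01 (cd x b u a) with h | h <;> rcases h01 (cd x b v a) with h' | h' <;>
        simp_all
    funext b
    cases b
    · exact key false huv.1
    · exact key true huv.2
  · intro u hu
    refine ⟨?_, ?_⟩
    · intro a ha
      exact hu false a (Finsupp.mem_support_iff.1 (Finset.mem_coe.1 ha))
    · intro a ha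
      exact hu true a (Finsupp.mem_support_iff.1 (Finset.mem_coe.1 ha))

theorem countable_finset (Z : Set ι) (hZ : Z.Countable) :
    {R : Finset ι | (↑R : Set ι) ⊆ Z}.Countable := by
  have h := (Set.countable_ofPred_finite_subset hZ).preimage_of_injOn
    (f := fun R : Finset ι => (↑R : Set ι)) (Finset.coe_injective.injOn)
  refine h.mono ?_
  intro R hR
  exact ⟨R.finite_toSet, hR⟩

end MP909
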