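import Pool.Agent.Lib_MP_909c8f.Tpl

namespace MP909
open Function Topology
variable {ι : Type} {x : ι → Cn}

open Classical in
/-- splitting `p` into its part over `Z` and the rest.
PROOF. `R = Rp.filter (· ∈ Z)`, `R' = Rp.filter (· ∉ Z)`, `j = R'.card`, `t` the enumeration of `R'`
(`R'.equivFin.symm` followed by the coercion), `σ i b = cd x b p (t i)`,
`u = p - ∑ i, sg x (t i) (σ i)`.  `cd x b u a = 0` for `a ∈ R'`, and for `a ∉ Rp`. -/
theorem decomp (p : PG x) (Z : Set ι) (Rp : Finset ι) (hR : ∀ b a, cd x b p a ≠ 0 → a ∈ Rp) :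
    ∃ (R : Finset ι) (u : PG x) (j : ℕ) (σ : Fin j → Bool → ZMod 2) (t : Fin j → ι),
      Injective t ∧ (∀ i, t i ∉ Z) ∧ (↑R : Set ι) ⊆ Z ∧ R ∪ Finset.univ.image t = Rp ∧
      (∀ b a, cd x b u a ≠ 0 → a ∈ R) ∧ p = pT x u σ t := by
  set R' := Rp.filter (· ∉ Z) with hR'
  let t : Fin R'.card → ι := fun i => (R'.equivFin.symm i : ι)
  have ht : Injective t := fun i j hij => R'.equivFin.symm.injective (Subtype.ext hij)
  have htm : ∀ i, t i ∈ R' := fun i => (R'.equivFin.symm i).2
  have hts : ∀ a ∈ R', ∃ i, t i = a := fun a ha => ⟨R'.equivFin ⟨a, ha⟩, by simp [t]⟩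
  let σ : Fin R'.card → Bool → ZMod 2 := fun i b => cd x b p (t i)
  have key : ∀ b a, cd x b (∑ i, sg x (t i) (σ i)) a = if a ∈ R' then cd x b p a else 0 := by
    intro b a
    rw [map_sum, Finsupp.finset_sum_apply]
    simp only [cd_sg]
    split_ifs with ha
    · obtain ⟨i0, hi0⟩ := hts a ha
      rw [Finset.sum_eq_single i0]
      · rw [hi0, Finsupp.single_eq_same]
        simp only [σ, hi0]
      · intro i _ hi
        apply Finsupp.single_eq_of_ne
        intro h
        exact hi (ht (by rw [hi0]; exact h.symm))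
      · intro h; exact absurd (Finset.mem_univ _) h
    · apply Finset.sum_eq_zero
      intro i _
      apply Finsupp.single_eq_of_ne
      intro h
      apply ha
      rw [h]
      exact htm i
  refine ⟨Rp.filter (· ∈ Z), p - ∑ i, sg x (t i) (σ i), R'.card, σ, t, ht, ?_, ?_, ?_, ?_, ?_⟩
  · intro i
    exact (Finset.mem_filter.1 (htm i)).2
  · intro a ha
    exact (Finset.mem_filter.1 (Finset.mem_coe.1 ha)).2
  · ext a
    simp only [Finset.mem_union, Finset.mem_filter, Finset.mem_image, Finset.mem_univ, true_and]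
    constructor
    · rintro (h | ⟨i, hi⟩)
      · exact h.1
      · rw [← hi]; exact (Finset.mem_filter.1 (htm i)).1
    · intro h
      by_cases hz : a ∈ Z
      · exact Or.inl ⟨h, hz⟩
      · exact Or.inr (hts a (Finset.mem_filter.2 ⟨h, hz⟩))
  · intro b a h
    rw [map_sub, Finsupp.sub_apply, key] at h
    by_cases ha : a ∈ R'
    · rw [if_pos ha, sub_self] at h
      exact absurd rfl h
    · rw [if_neg ha, sub_zero] at h
      have h1 := hR b a h
      refine Finset.mem_filter.2 ⟨h1, ?_⟩
      by_contra hz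
      exact ha (Finset.mem_filter.2 ⟨h1, hz⟩)
  · unfold pT
    rw [sub_add_cancel]

end MP909
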