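import Pool.Agent.Lib_MP_909c8f.CloseOff
import Pool.Agent.Lib_MP_909c8f.Box

namespace MP909
open Function Topology
variable {ι : Type} (x : ι → Cn)

open Classical in
/-- the countable set `Z` of indices over which everything is closed off.
PROOF. Templates: `Tm = Finset ι × PG x × (Σ j : ℕ, Fin j → Bool → ZMod 2) × ℕ × ℚ`, with
`base (R,u,σ,m,q) = ↑R ∪ {a | ∃ b, cd x b u a ≠ 0}`.  `E T` = image of `QT x F ε R u σ m q` under
`t ↦ x ∘ t`, `K T = frontier (closure (E T))` is closed with empty interior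
(`isClosed_frontier`, `interior_frontier isClosed_closure`), so that `hL` gives the countable set
`S T`.  `close_off` (countability of `{T | base T ⊆ Z}` from `countable_PG`, `countable_finset`,
and `Countable` instances for `(Σ j : ℕ, Fin j → Bool → ZMod 2) × ℕ × ℚ`) gives `Z`.
Let `t ∈ QT ..` with values outside `Z`.  Then `x ∘ t ∈ E T ⊆ closure (E T)` and
`x ∘ t ∉ frontier (closure (E T)) = closure (E T) \ interior (closure (E T))`
(`IsClosed.frontier_eq`), so `x ∘ t ∈ interior (closure (E T))`; apply `box`. -/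
theorem exists_Z (hL : Luz x) (F : PG x → ℝ) (ε : ℝ) :
    ∃ Z : Set ι, Z.Countable ∧ ∀ (R : Finset ι) (u : PG x) (j : ℕ) (σ : Fin j → Bool → ZMod 2)
      (m : ℕ) (q : ℚ), (↑R : Set ι) ⊆ Z → (∀ b a, cd x b u a ≠ 0 → a ∈ Z) →
      ∀ t ∈ QT x F ε R u σ m q, (∀ i, t i ∉ Z) →
        ∃ N, ∀ y' : Fin j → Cn, (∀ i, Agr (y' i) (x (t i)) N) → ∀ M,
          ∃ t' ∈ QT x F ε R u σ m q, ∀ i, Agr (x (t' i)) (y' i) M := by
  let E : ∀ T : Finset ι × PG x × (Σ j : ℕ, Fin j → Bool → ZMod 2) × ℕ × ℚ,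
      Set (Fin T.2.2.1.1 → Cn) := fun T =>
    (fun t => x ∘ t) '' QT x F ε T.1 T.2.1 T.2.2.1.2 T.2.2.2.1 T.2.2.2.2
  let base : (Finset ι × PG x × (Σ j : ℕ, Fin j → Bool → ZMod 2) × ℕ × ℚ) → Set ι := fun T =>
    (↑T.1 : Set ι) ∪ {a | ∃ b, cd x b T.2.1 a ≠ 0}
  choose S hS1 hS2 using fun T => hL _ (frontier (closure (E T))) isClosed_frontier
    (interior_frontier isClosed_closure)
  obtain ⟨Z, hZ, hZ2⟩ := close_off base S
    (by
      intro T
      refine (Finset.finite_toSet T.1).union ?_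
      have : {a | ∃ b, cd x b T.2.1 a ≠ 0} = (↑(sup T.2.1) : Set ι) := by
        ext a
        simp only [Set.mem_setOf_eq, Finset.mem_coe, mem_sup]
      rw [this]
      exact Finset.finite_toSet _)
    (by
      intro Z hZ
      refine Set.Countable.mono ?_ ((countable_finset Z hZ).prod
        ((countable_PG x Z hZ).prod (Set.countable_univ :
          (Set.univ : Set ((Σ j : ℕ, Fin j → Bool → ZMod 2) × ℕ × ℚ)).Countable)))
      rintro T hT
      refine ⟨fun a ha => hT (Or.inl ha), fun b a ha => hT (Or.inr ⟨b, ha⟩), Set.mem_univ _⟩)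
    hS1
  refine ⟨Z, hZ, ?_⟩
  intro R u j σ m q hR hu t ht htZ
  have hT := hZ2 (R, u, ⟨j, σ⟩, m, q) (by
    rintro a (ha | ⟨b, hb⟩)
    · exact hR ha
    · exact hu b a hb)
  have h1 := hS2 (R, u, ⟨j, σ⟩, m, q) t ht.1 (fun i hi => htZ i (hT hi))
  have h2 : x ∘ t ∈ closure (E (R, u, ⟨j, σ⟩, m, q)) := subset_closure ⟨t, ht, rfl⟩
  have h3 : x ∘ t ∈ interior (closure (E (R, u, ⟨j, σ⟩, m, q))) := by
    by_contra h4
    apply h1
    rw [isClosed_closure.frontier_eq]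
    exact ⟨h2, h4⟩
  obtain ⟨N, hN⟩ := box _ _ h3
  refine ⟨N, fun y' hy' M => ?_⟩
  obtain ⟨e, ⟨t', ht', rfl⟩, he⟩ := hN y' hy' M
  exact ⟨t', ht', he⟩

end MP909
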