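import Pool.Agent.Lib_MP_909c8f.Pert

namespace MP909
open Function Topology
variable {ι : Type} {x : ι → Cn}

/-- simultaneous version for finitely many branches in different cones of level `N`.
PROOF. Take `k i` from `pert` for every `i` (`choose`) and `k = ∑ i, k i`.  `k ∈ L x R m`
(`AddSubgroup.sum_mem`).  Support: if `cd x b k a ≠ 0` then `cd x b (k i) a ≠ 0` for some `i`.
For fixed `i`: `p + k = (p + k i) + ∑ i' ≠ i, k i'` (`Finset.add_sum_erase`); for `i' ≠ i` no
support point of `k i'` is in the cone of `d i` of level `N` (otherwise `Agr (d i') (d i) N`), so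
`Cp x (k i') (d i) N` by `Cp_of_free`; sums by induction (`Cp_add`, `Cp_zero`).
`Fr x (p + k) (d i)`: if `x a = d i` then `cd x b (p + k i) a = 0` by `Fr` and
`cd x b (k i') a = 0` for `i' ≠ i`. -/
theorem pert_many (h : Good x) (p : PG x) {j : ℕ} (d : Fin j → Cn) (N : ℕ)
    (hd : ∀ i i', Agr (d i) (d i') N → i = i') (hp : ∀ i, Cp x p (d i) N)
    (R : Finset ι) (m : ℕ) :
    ∃ k ∈ L x R m, (∀ b a, cd x b k a ≠ 0 → ∃ i, Agr (x a) (d i) N) ∧
      ∀ i, Cp x (p + k) (d i) N ∧ Fr x (p + k) (d i) := by
  classical
  choose k hkL hks hkC hkF using fun i => pert h p (d i) N (hp i) R m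
  have hcds : ∀ (s : Finset (Fin j)) b a, cd x b (∑ i ∈ s, k i) a = ∑ i ∈ s, cd x b (k i) a := by
    intro s b a
    rw [map_sum, Finsupp.finsetSum_apply]
  refine ⟨∑ i, k i, (L x R m).sum_mem fun i _ => hkL i, ?_, ?_⟩
  · intro b a ha
    rw [hcds] at ha
    obtain ⟨i, _, hi⟩ := Finset.exists_ne_zero_of_sum_ne_zero ha
    exact ⟨i, hks i b a hi⟩
  · intro i
    have hsplit : p + ∑ i', k i' = (p + k i) + ∑ i' ∈ Finset.univ.erase i, k i' := by
      rw [add_assoc, Finset.add_sum_erase _ _ (Finset.mem_univ i)]
    have hz : ∀ i', i' ≠ i → ∀ b a, cd x b (k i') a ≠ 0 → ¬ Agr (x a) (d i) N := by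
      intro i' hne b a ha hA
      exact hne (hd i' i ((hks i' b a ha).symm.trans hA))
    rw [hsplit]
    constructor
    · apply Cp_add x (hkC i)
      have : ∀ s : Finset (Fin j), (∀ i' ∈ s, i' ≠ i) → Cp x (∑ i' ∈ s, k i') (d i) N := by
        intro s
        induction s using Finset.induction_on with
        | empty => intro _; rw [Finset.sum_empty]; exact Cp_zero x _ _
        | insert a s ha ih =>
          intro hs
          rw [Finset.sum_insert ha]
          apply Cp_add x
          · exact Cp_of_free x fun b c hc hA =>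
              absurd hA (hz a (hs a (Finset.mem_insert_self a s)) b c hc)
          · exact ih fun i' hi' => hs i' (Finset.mem_insert_of_mem hi')
      exact this _ fun i' hi' => Finset.ne_of_mem_erase hi'
    · intro b a ha hxa
      apply ha
      rw [map_add, Finsupp.add_apply]
      have h1 : cd x b (p + k i) a = 0 := by
        by_contra hne
        exact hkF i b a hne hxa
      have h2 : cd x b (∑ i' ∈ Finset.univ.erase i, k i') a = 0 := by
        rw [hcds]
        apply Finset.sum_eq_zero
        intro i' hi'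
        by_contra hne
        exact hz i' (Finset.ne_of_mem_erase hi') b a hne (by rw [hxa]; exact Agr.refl _ _)
      rw [h1, h2, add_zero]

end MP909
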