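import Pool.Agent.Lib_MP_909c8f.GoodCase
import Pool.Agent.Lib_MP_909c8f.PertM
import Pool.Agent.Lib_MP_909c8f.ExZ
import Pool.Agent.Lib_MP_909c8f.Decomp

namespace MP909
open Function Topology
variable {ι : Type} {x : ι → Cn}

open Classical in
/-- PROOF. `Z` from `exists_Z h.luz F ε`.  Let `p` be given.
* `F` is continuous at `p`: `mem_nhds` gives `R0, m` with `|F (p + k) - F p| < ε / 2` for
  `k ∈ L x R0 m`; choose `q : ℚ` with `|F p - q| < ε / 2`.  `Rp = R0 ∪ sup p`.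
* `decomp p Z Rp` gives `R u j σ t` with `p = pT x u σ t`; `t ∈ QT x F ε R u σ m q` since
  `L x Rp m ≤ L x R0 m`.
* `exists_Z` gives `N0` (boxes), `sep h.inj Rp` gives `M1`.  `N = max (max N0 M1) (max m 1)`.
  Then (h1) for `r ∈ R` and `i`: `¬ Agr (x r) (x (t i)) N` (otherwise `r = t i`, but `r ∈ Z` and
  `t i ∉ Z`), (h2) `Agr (x (t i)) (x (t i')) N → i = i'` (by `sep` and injectivity of `t`).
* `e s b = pa x b (fun k => if hk : k < N then s ⟨k, hk⟩ else false) N p`; by `pa_congr` and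
  `rs_eq`, `pa x b c N p = e (rs N c) b`.  `S = Finset.univ.image fun i => rs N (x (t i))`.
  `p ∈ OS x N e R u S` by `mem_OS_self`.
* Let `p' ∈ OS x N e R u S`.  We show `|F p' - q| < ε + δ` for every `δ > 0`
  (`le_of_forall_pos_lt_add`-like).  Continuity at `p'`: `R', m'` with `|F (p' + k) - F p'| < δ`
  for `k ∈ L x R' m'`.  Witnesses `d i` with `rs N (d i) = rs N (x (t i))` and `Cp x p' (d i) N`.
  `pert_many h p' d N _ _ R' (max m' N)` gives `k`.  Put `p'' = p' + k`.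
  - `pa x b c N p'' = pa x b c N p' = e (rs N c) b = pa x b c N p`, because
    `k ∈ L x R' (max m' N)`.
  - for `r ∈ R`: `Cp x (p'' - u) (x r) N`: `p'' - u = (p' - u) + k` and no support point of `k` is
    in the cone of `x r` of level `N` (a support point `a` of `k` has `Agr (x a) (d i) N`, and
    `Agr (d i) (x (t i)) N`; together with `Agr (x a) (x r) N` contradiction to (h1)),
    `Cp_of_free`.
  - `Fr x p'' (d i)` and `free_cone (sup p'') (d i)` give `M i`; `M = sup` of the `M i`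
    (`Finset.univ.sup M`): no support point of `p''` is in the cone of `d i` of level `M`.
  - the box property at level `max M N` for `y' = d` gives `t' ∈ QT ..` with
    `Agr (x (t' i)) (d i) (max M N)`.
  - `good_case` gives `p'' - pT x u σ t' ∈ L x (R ∪ univ.image t') m`, so `|F p'' - q| < ε`
    by the definition of `QT` (`pT x u σ t' + (p'' - pT x u σ t') = p''`).
  Finally `|F p' - q| ≤ |F p' - F p''| + |F p'' - q| < δ + ε`. -/
theorem core (h : Good x) (F : PG x → ℝ) (hF : Continuous F) (ε : ℝ) (hε : 0 < ε) :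
    ∃ Z : Set ι, Z.Countable ∧ ∀ p : PG x, ∃ (N : ℕ) (e : (Fin N → Bool) → Bool → ZMod 2)
      (R : Finset ι) (u : PG x) (S : Finset (Fin N → Bool)) (q : ℚ), 1 ≤ N ∧ (↑R : Set ι) ⊆ Z ∧
      (∀ b a, cd x b u a ≠ 0 → a ∈ Z) ∧ p ∈ OS x N e R u S ∧
      ∀ p' ∈ OS x N e R u S, |F p' - q| ≤ ε := by
  obtain ⟨Z, hZc, hZ⟩ := exists_Z x h.luz F ε
  refine ⟨Z, hZc, fun p => ?_⟩
  have hcont : ∀ (p : PG x) (δ : ℝ), 0 < δ → ∃ R m, ∀ k ∈ L x R m, |F (p + k) - F p| < δ := by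
    intro p δ hδ
    have h1 : F ⁻¹' Metric.ball (F p) δ ∈ 𝓝 p :=
      hF.continuousAt.preimage_mem_nhds (Metric.ball_mem_nhds _ hδ)
    obtain ⟨R, m, hR⟩ := (mem_nhds x).1 h1
    refine ⟨R, m, fun k hk => ?_⟩
    have h2 := hR k hk
    rwa [Set.mem_preimage, Metric.mem_ball, Real.dist_eq] at h2
  obtain ⟨R0, m, hR0⟩ := hcont p (ε / 2) (by linarith)
  obtain ⟨q, hq1, hq2⟩ := exists_rat_btwn (show F p - ε / 2 < F p + ε / 2 by linarith)
  have hq : |F p - q| < ε / 2 := by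
    rw [abs_lt]; constructor <;> linarith
  obtain ⟨R, u, j, σ, t, htinj, htZ, hRZ, hRt, hu, hpt⟩ := decomp p Z (R0 ∪ sup p)
    (fun b a ha => Finset.mem_union_right _ (mem_sup.2 ⟨b, ha⟩))
  have huZ : ∀ b a, cd x b u a ≠ 0 → a ∈ Z := fun b a ha => hRZ (Finset.mem_coe.2 (hu b a ha))
  have hQ : t ∈ QT x F ε R u σ m q := by
    refine ⟨htinj, fun k hk => ?_⟩
    rw [hRt] at hk
    rw [← hpt]
    have h1 := hR0 k (L_mono x Finset.subset_union_left le_rfl hk)
    have h2 : F (p + k) - q = (F (p + k) - F p) + (F p - q) := by ring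
    rw [h2]
    calc |(F (p + k) - F p) + (F p - q)| ≤ |F (p + k) - F p| + |F p - q| := abs_add_le _ _
      _ < ε / 2 + ε / 2 := add_lt_add h1 hq
      _ = ε := by ring
  obtain ⟨N0, hN0⟩ := hZ R u j σ m q hRZ huZ t hQ htZ
  obtain ⟨M1, hM1⟩ := sep h.inj (R0 ∪ sup p)
  obtain ⟨N, hN⟩ : ∃ N, N = max (max N0 M1) (max m 1) := ⟨_, rfl⟩
  have hN0N : N0 ≤ N := by omega
  have hM1N : M1 ≤ N := by omega
  have hmN : m ≤ N := by omega
  have h1N : 1 ≤ N := by omega
  have hRp : ∀ r ∈ R, r ∈ R0 ∪ sup p := fun r hr => hRt ▸ Finset.mem_union_left _ hr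
  have htp : ∀ i, t i ∈ R0 ∪ sup p := fun i => by
    rw [← hRt]
    exact Finset.mem_union_right _ (Finset.mem_image_of_mem _ (Finset.mem_univ i))
  have h1 : ∀ r ∈ R, ∀ i, ¬ Agr (x r) (x (t i)) N := by
    intro r hr i hA
    have h3 := hM1 r (hRp r hr) (t i) (htp i) (hA.mono hM1N)
    exact htZ i (h3 ▸ hRZ (Finset.mem_coe.2 hr))
  have h2 : ∀ i i', Agr (x (t i)) (x (t i')) N → i = i' := fun i i' hA =>
    htinj (hM1 _ (htp i) _ (htp i') (hA.mono hM1N))
  obtain ⟨e, he⟩ : ∃ e : (Fin N → Bool) → Bool → ZMod 2, ∀ b c, pa x b c N p = e (rs N c) b := by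
    refine ⟨fun s b => pa x b (fun k => if hk : k < N then s ⟨k, hk⟩ else false) N p,
      fun b c => ?_⟩
    apply pa_congr
    intro k hk
    simp only [rs, dif_pos hk]
  have hself := mem_OS_self x u σ t R N hu h1 h2 e (by rw [← hpt]; exact he)
  rw [← hpt] at hself
  refine ⟨N, e, R, u, _, q, h1N, hRZ, huZ, hself, ?_⟩
  rintro p' ⟨hpar, hR', hS⟩
  refine le_of_forall_pos_le_add fun δ hδ => ?_
  obtain ⟨Rq, mq, hRq⟩ := hcont p' δ hδ
  have hw : ∀ i, ∃ d, rs N d = rs N (x (t i)) ∧ Cp x p' d N := fun i =>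
    hS _ (Finset.mem_image_of_mem _ (Finset.mem_univ i))
  choose d hd1 hd2 using hw
  have hdt : ∀ i, Agr (d i) (x (t i)) N := fun i => rs_eq.1 (hd1 i)
  obtain ⟨k, hkL, hks, hkd⟩ := pert_many h p' d N
    (fun i i' hA => h2 i i' ((hdt i).symm.trans (hA.trans (hdt i')))) hd2 Rq (max mq N)
  have hpk : |F (p' + k) - F p'| < δ := hRq k (L_mono x (Finset.Subset.refl _) (le_max_left _ _) hkL)
  have hpar2 : ∀ b c, pa x b c N (p' + k) = pa x b c N (pT x u σ t) := by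
    intro b c
    rw [map_add, hkL.1 b c N (le_max_right _ _), add_zero, hpar, ← he, hpt]
  have hR2 : ∀ r ∈ R, Cp x (p' + k - u) (x r) N := by
    intro r hr
    have e1 : p' + k - u = (p' - u) + k := by abel
    rw [e1]
    refine Cp_add x (hR' r hr) (Cp_of_free x fun b a ha hA => ?_)
    obtain ⟨i, hi⟩ := hks b a ha
    exact absurd (hA.symm.trans (hi.trans (hdt i))) (h1 r hr i)
  have hfree : ∀ i, ∃ M, ∀ a ∈ sup (p' + k), ¬ Agr (x a) (d i) M := fun i =>
    free_cone (sup (p' + k)) (d i) fun a ha => by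
      obtain ⟨b, hb⟩ := mem_sup.1 ha
      exact (hkd i).2 b a hb
  choose Mf hMf using hfree
  obtain ⟨M, hMd⟩ : ∃ M, M = Finset.univ.sup Mf := ⟨_, rfl⟩
  have hM : ∀ i b a, cd x b (p' + k) a ≠ 0 → ¬ Agr (x a) (d i) M := by
    intro i b a ha hA
    refine hMf i a (mem_sup.2 ⟨b, ha⟩) (hA.mono ?_)
    rw [hMd]
    exact Finset.le_sup (Finset.mem_univ i)
  obtain ⟨t', ht'Q, ht'⟩ := hN0 d (fun i => (hdt i).mono hN0N) (max M N)
  have hgood := good_case x u σ t t' R N M m hmN hu h1 h2 (p' + k) hpar2 hR2 d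
    (fun i => (hkd i).1) hdt hM ht'
  have hfin := ht'Q.2 _ hgood
  rw [add_sub_cancel] at hfin
  have e2 : F p' - q = (F (p' + k) - q) - (F (p' + k) - F p') := by ring
  rw [e2]
  calc |(F (p' + k) - q) - (F (p' + k) - F p')| ≤ |F (p' + k) - q| + |F (p' + k) - F p'| :=
        abs_sub _ _
    _ ≤ ε + δ := by linarith

end MP909
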