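import Mathlib

namespace MP909
open Function Topology

/-- PROOF. For every `i ∈ S` the open set `{w | 1/2 < g w}` contains `a i * b i`; by continuity of
multiplication and a countable basis `𝓑` of `K` there are `U, V ∈ 𝓑` with `a i ∈ U`, `b i ∈ V` and
`1/2 < g (u * v)` for all `u ∈ U`, `v ∈ V`.  `S` is uncountable and there are only countably many
pairs `(U, V)`, so that two different indices `i, j ∈ S` have the same pair (otherwise the map to
pairs is injective on `S` and `S` is countable, `Set.InjOn`, `Set.MapsTo.countable_of_injOn`). -/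
theorem corner {A K : Type*} [Group K] [TopologicalSpace K] [IsTopologicalGroup K]
    [SecondCountableTopology K] (a b : A → K) (g : K → ℝ) (hg : Continuous g) (S : Set A)
    (hS : ¬ S.Countable) (h1 : ∀ i ∈ S, g (a i * b i) = 1) :
    ∃ i ∈ S, ∃ j ∈ S, i ≠ j ∧ 1 / 2 < g (a i * b j) ∧ 1 / 2 < g (a j * b i) := by
  classical
  have hB := TopologicalSpace.isBasis_countableBasis K
  have hcount := TopologicalSpace.countable_countableBasis K
  have key : ∀ i ∈ S, ∃ U ∈ TopologicalSpace.countableBasis K,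
      ∃ V ∈ TopologicalSpace.countableBasis K, a i ∈ U ∧ b i ∈ V ∧
        ∀ u ∈ U, ∀ v ∈ V, 1 / 2 < g (u * v) := by
    intro i hi
    have hopen : IsOpen {p : K × K | 1 / 2 < g (p.1 * p.2)} :=
      isOpen_lt continuous_const (hg.comp continuous_mul)
    have hmem : (a i, b i) ∈ {p : K × K | 1 / 2 < g (p.1 * p.2)} := by
      change 1 / 2 < g (a i * b i)
      rw [h1 i hi]
      norm_num
    obtain ⟨U', V', hU', hV', haU, hbV, hsub⟩ := isOpen_prod_iff.1 hopen (a i) (b i) hmem
    obtain ⟨U, hU, haU2, hUs⟩ := hB.exists_subset_of_mem_open haU hU'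
    obtain ⟨V, hV, hbV2, hVs⟩ := hB.exists_subset_of_mem_open hbV hV'
    exact ⟨U, hU, V, hV, haU2, hbV2, fun u hu v hv =>
      hsub (Set.mk_mem_prod (hUs hu) (hVs hv))⟩
  choose! U hU V hV haU hbV hUV using key
  have hnot : ¬ Set.InjOn (fun i => (U i, V i)) S := by
    intro hinj
    apply hS
    have hmaps : Set.MapsTo (fun i => (U i, V i)) S
        (TopologicalSpace.countableBasis K ×ˢ TopologicalSpace.countableBasis K) :=
      fun i hi => Set.mk_mem_prod (hU i hi) (hV i hi)
    exact Set.MapsTo.countable_of_injOn hmaps hinj (hcount.prod hcount)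
  unfold Set.InjOn at hnot
  push Not at hnot
  obtain ⟨i, hi, j, hj, hij, hne⟩ := hnot
  obtain ⟨h2, h3⟩ := Prod.mk.inj hij
  refine ⟨i, hi, j, hj, hne, ?_, ?_⟩
  · refine hUV i hi _ (haU i hi) _ ?_
    rw [h3]
    exact hbV j hj
  · refine hUV i hi _ ?_ _ (hbV i hi)
    rw [h2]
    exact haU j hj

end MP909
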