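import Mathlib

/-!
# MP_909c8f_al : definitions

`x : ι → Cn` is a family of points of the Cantor set.  `PG x` is the Boolean group of all pairs
`(p false, p true)` of finitely supported functions `ι → ZMod 2`.
-/

namespace MP909

open Function Topology

/-- the Cantor set -/
abbrev Cn := ℕ → Bool

/-- `c` and `c'` agree below `n` (they lie in the same cone of level `n`) -/
def Agr (c c' : Cn) (n : ℕ) : Prop := ∀ k, k < n → c k = c' k

/-- the sequence `c` with the `n`-th bit flipped -/
def fl (c : Cn) (n : ℕ) : Cn := Function.update c n (!(c n))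

variable {ι : Type}

open Classical in
/-- parity of the part of `v` that lies in the cone of `c` of level `n` -/
noncomputable def ph (x : ι → Cn) (c : Cn) (n : ℕ) : (ι →₀ ZMod 2) →+ ZMod 2 :=
  Finsupp.liftAddHom fun i => if Agr (x i) c n then AddMonoidHom.id (ZMod 2) else 0

/-- the group: `p false` is the left coordinate and `p true` is the right coordinate -/
def PG (_x : ι → Cn) : Type := Bool → (ι →₀ ZMod 2)

noncomputable instance (x : ι → Cn) : AddCommGroup (PG x) :=
  inferInstanceAs (AddCommGroup (Bool → (ι →₀ ZMod 2)))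

/-- coordinate `b` -/
noncomputable def cd (x : ι → Cn) (b : Bool) : PG x →+ (ι →₀ ZMod 2) :=
  Pi.evalAddMonoidHom (fun _ : Bool => (ι →₀ ZMod 2)) b

/-- parity of coordinate `b` on the cone of `c` of level `n` -/
noncomputable def pa (x : ι → Cn) (b : Bool) (c : Cn) (n : ℕ) : PG x →+ ZMod 2 :=
  (ph x c n).comp (cd x b)

/-- one step of the compatibility of `p` with the branch `c`: if `c n = true` then the left
coordinate is even on the left sibling of `c` at level `n+1`; if `c n = false` then the right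
coordinate is even on the right sibling -/
def Cq (x : ι → Cn) (p : PG x) (c : Cn) (n : ℕ) : Prop :=
  pa x (!(c n)) c n p = pa x (!(c n)) c (n + 1) p

/-- `p` is compatible with the branch `c` from level `N` on -/
def Cp (x : ι → Cn) (p : PG x) (c : Cn) (N : ℕ) : Prop := ∀ n, N ≤ n → Cq x p c n

/-- restriction to the first `N` bits -/
def rs (N : ℕ) (c : Cn) : Fin N → Bool := fun i => c i

/-- no support point of `p` equals `d` -/
def Fr (x : ι → Cn) (p : PG x) (d : Cn) : Prop := ∀ b i, cd x b p i ≠ 0 → x i ≠ d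

/-! ### elementary lemmas -/

theorem Agr.refl (c : Cn) (n : ℕ) : Agr c c n := fun _ _ => rfl

theorem Agr.symm {c d : Cn} {n : ℕ} (h : Agr c d n) : Agr d c n := fun k hk => (h k hk).symm

theorem Agr.trans {c d e : Cn} {n : ℕ} (h : Agr c d n) (h' : Agr d e n) : Agr c e n :=
  fun k hk => (h k hk).trans (h' k hk)

theorem Agr.mono {c d : Cn} {m n : ℕ} (hmn : m ≤ n) (h : Agr c d n) : Agr c d m :=
  fun k hk => h k (lt_of_lt_of_le hk hmn)

theorem agr_zero (c d : Cn) : Agr c d 0 := fun k hk => absurd hk (Nat.not_lt_zero k)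

theorem agr_succ {c d : Cn} {n : ℕ} : Agr c d (n + 1) ↔ Agr c d n ∧ c n = d n := by
  constructor
  · intro h
    exact ⟨h.mono (Nat.le_succ n), h n (Nat.lt_succ_self n)⟩
  · rintro ⟨h, h'⟩ k hk
    rcases Nat.lt_succ_iff_lt_or_eq.1 hk with h1 | h1
    · exact h k h1
    · rw [h1]; exact h'

theorem agr_all {c d : Cn} (h : ∀ n, Agr c d n) : c = d :=
  funext fun k => h (k + 1) k (Nat.lt_succ_self k)

theorem rs_eq {c d : Cn} {N : ℕ} : rs N c = rs N d ↔ Agr c d N := by
  constructor
  · intro h k hk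
    exact congrFun h ⟨k, hk⟩
  · intro h
    funext i
    exact h i i.2

theorem fl_agr (c : Cn) (n : ℕ) : Agr (fl c n) c n := by
  intro k hk
  simp [fl, Function.update_of_ne (Nat.ne_of_lt hk)]

theorem fl_at (c : Cn) (n : ℕ) : fl c n n = !(c n) := by
  simp [fl]

variable (x : ι → Cn)

open Classical in
theorem ph_single (c : Cn) (n : ℕ) (i : ι) (a : ZMod 2) :
    ph x c n (Finsupp.single i a) = if Agr (x i) c n then a else 0 := by
  unfold ph
  rw [Finsupp.liftAddHom_apply_single]
  split_ifs <;> simp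

theorem ph_congr {c c' : Cn} {n : ℕ} (h : Agr c c' n) (v : ι →₀ ZMod 2) :
    ph x c n v = ph x c' n v := by
  classical
  induction v using Finsupp.induction_linear with
  | zero => simp
  | add f g hf hg => simp only [map_add, hf, hg]
  | single i a =>
    rw [ph_single, ph_single]
    have : Agr (x i) c n ↔ Agr (x i) c' n := ⟨fun h1 => h1.trans h, fun h1 => h1.trans h.symm⟩
    simp only [this]

theorem ph_split (c : Cn) (n : ℕ) (v : ι →₀ ZMod 2) :
    ph x c n v = ph x c (n + 1) v + ph x (fl c n) (n + 1) v := by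
  classical
  induction v using Finsupp.induction_linear with
  | zero => simp
  | add f g hf hg => simp only [map_add, hf, hg]; abel
  | single i a =>
    rw [ph_single, ph_single, ph_single]
    have h1 : Agr (x i) c (n + 1) ↔ Agr (x i) c n ∧ x i n = c n := agr_succ
    have h2 : Agr (x i) (fl c n) (n + 1) ↔ Agr (x i) c n ∧ x i n = !(c n) := by
      rw [agr_succ, fl_at]
      constructor
      · rintro ⟨h, h'⟩; exact ⟨h.trans (fl_agr c n), h'⟩
      · rintro ⟨h, h'⟩; exact ⟨h.trans (fl_agr c n).symm, h'⟩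
    by_cases h : Agr (x i) c n
    · by_cases h' : x i n = c n
      · simp [h1, h2, h, h']
      · have h'' : x i n = !(c n) := by
          cases hx : x i n <;> cases hc : c n <;> simp_all
        simp [h1, h2, h, h'']
    · simp [h1, h2, h]

/-- the parity of a cone without support points is zero -/
theorem ph_zero_of {c : Cn} {n : ℕ} {v : ι →₀ ZMod 2} (h : ∀ i, v i ≠ 0 → ¬ Agr (x i) c n) :
    ph x c n v = 0 := by
  classical
  unfold ph
  rw [Finsupp.liftAddHom_apply, Finsupp.sum]
  apply Finset.sum_eq_zero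
  intro i hi
  rw [if_neg (h i (Finsupp.mem_support_iff.1 hi))]
  simp

/-- parities of level `m` determine those of level `n ≤ m` -/
theorem ph_level {m : ℕ} {v : ι →₀ ZMod 2} (h : ∀ c, ph x c m v = 0) :
    ∀ n, n ≤ m → ∀ c, ph x c n v = 0 := by
  intro n hn
  induction hn using Nat.decreasingInduction with
  | self => exact h
  | of_succ k hk ih =>
    intro c
    rw [ph_split, ih c, ih (fl c k), add_zero]

theorem pa_apply (b : Bool) (c : Cn) (n : ℕ) (p : PG x) : pa x b c n p = ph x c n (cd x b p) := rfl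

theorem pa_congr {c c' : Cn} {n : ℕ} (b : Bool) (h : Agr c c' n) (p : PG x) :
    pa x b c n p = pa x b c' n p := ph_congr x h _

theorem pa_zero_of {b : Bool} {c : Cn} {n : ℕ} {p : PG x}
    (h : ∀ i, cd x b p i ≠ 0 → ¬ Agr (x i) c n) : pa x b c n p = 0 := ph_zero_of x h

theorem pa_level {b : Bool} {m : ℕ} {p : PG x} (h : ∀ c, pa x b c m p = 0) :
    ∀ n, n ≤ m → ∀ c, pa x b c n p = 0 := ph_level x h

theorem Cq_congr {p : PG x} {c c' : Cn} {n : ℕ} (h : Agr c c' (n + 1)) :
    Cq x p c n ↔ Cq x p c' n := by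
  unfold Cq
  rw [h n (Nat.lt_succ_self n), pa_congr x _ (h.mono (Nat.le_succ n)), pa_congr x _ h]

theorem Cq_zero (c : Cn) (n : ℕ) : Cq x 0 c n := by
  unfold Cq; simp

theorem Cq_add {p q : PG x} {c : Cn} {n : ℕ} (hp : Cq x p c n) (hq : Cq x q c n) :
    Cq x (p + q) c n := by
  unfold Cq at *; simp only [map_add, hp, hq]

theorem Cq_neg {p : PG x} {c : Cn} {n : ℕ} (hp : Cq x p c n) : Cq x (-p) c n := by
  unfold Cq at *; simp only [map_neg, hp]

theorem Cq_sub {p q : PG x} {c : Cn} {n : ℕ} (hp : Cq x p c n) (hq : Cq x q c n) :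
    Cq x (p - q) c n := by
  unfold Cq at *; simp only [map_sub, hp, hq]

/-- if all support points of `p` in the cone of `c` of level `n` are equal to `c` then the
condition holds at level `n` -/
theorem Cq_of_free {p : PG x} {c : Cn} {n : ℕ}
    (h : ∀ b i, cd x b p i ≠ 0 → Agr (x i) c n → Agr (x i) c (n + 1)) : Cq x p c n := by
  unfold Cq
  rw [pa_apply, pa_apply, ph_split]
  have : ph x (fl c n) (n + 1) (cd x (!(c n)) p) = 0 := by
    apply ph_zero_of
    intro i hi hA
    have h1 : Agr (x i) c n := (hA.mono (Nat.le_succ n)).trans (fl_agr c n)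
    have h2 := h _ i hi h1 n (Nat.lt_succ_self n)
    have h3 := hA n (Nat.lt_succ_self n)
    rw [fl_at, h2] at h3
    revert h3
    cases c n <;> decide
  rw [this, add_zero]

/-- if all parities of `p` of level `≤ m` vanish then the condition holds below `m` -/
theorem Cq_of_low {p : PG x} {c : Cn} {m n : ℕ} (h : ∀ b c n, n ≤ m → pa x b c n p = 0)
    (hn : n < m) : Cq x p c n := by
  unfold Cq
  rw [h _ _ _ hn.le, h _ _ _ hn]

theorem Cp_zero (c : Cn) (N : ℕ) : Cp x 0 c N := fun n _ => Cq_zero x c n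

theorem Cp_add {p q : PG x} {c : Cn} {N : ℕ} (hp : Cp x p c N) (hq : Cp x q c N) :
    Cp x (p + q) c N := fun n hn => Cq_add x (hp n hn) (hq n hn)

theorem Cp_neg {p : PG x} {c : Cn} {N : ℕ} (hp : Cp x p c N) : Cp x (-p) c N :=
  fun n hn => Cq_neg x (hp n hn)

theorem Cp_sub {p q : PG x} {c : Cn} {N : ℕ} (hp : Cp x p c N) (hq : Cp x q c N) :
    Cp x (p - q) c N := fun n hn => Cq_sub x (hp n hn) (hq n hn)

theorem Cp_mono {p : PG x} {c : Cn} {N M : ℕ} (h : N ≤ M) (hp : Cp x p c N) : Cp x p c M :=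
  fun n hn => hp n (h.trans hn)

/-- if all support points of `p` in the cone of `c` of level `N` are equal to `c` then `p` is
compatible with `c` from `N` on -/
theorem Cp_of_free {p : PG x} {c : Cn} {N : ℕ}
    (h : ∀ b i, cd x b p i ≠ 0 → Agr (x i) c N → x i = c) : Cp x p c N := by
  intro n hn
  apply Cq_of_free
  intro b i hi hA
  rw [h b i hi (hA.mono hn)]
  exact Agr.refl c _

/-- gluing: conditions below `M` can be checked on `c`, conditions above `M` on `c'` -/
theorem Cp_glue {p : PG x} {c c' : Cn} {N M : ℕ} (h : Agr c c' M)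
    (hc : ∀ n, N ≤ n → n < M → Cq x p c n) (hc' : Cp x p c' M) : Cp x p c' N := by
  intro n hn
  rcases lt_or_ge n M with h1 | h1
  · exact (Cq_congr x (h.mono h1)).1 (hc n hn h1)
  · exact hc' n h1

/-! ### the subgroups `L R m` -/

/-- the basic open subgroups -/
def L (R : Finset ι) (m : ℕ) : AddSubgroup (PG x) where
  carrier := {k | (∀ b c n, n ≤ m → pa x b c n k = 0) ∧ ∀ i ∈ R, Cp x k (x i) 0}
  zero_mem' := ⟨fun b c n _ => map_zero _, fun i _ => Cp_zero x _ _⟩
  add_mem' := by
    rintro p q ⟨hp, hp'⟩ ⟨hq, hq'⟩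
    refine ⟨fun b c n hn => ?_, fun i hi => Cp_add x (hp' i hi) (hq' i hi)⟩
    rw [map_add, hp b c n hn, hq b c n hn, add_zero]
  neg_mem' := by
    rintro p ⟨hp, hp'⟩
    refine ⟨fun b c n hn => ?_, fun i hi => Cp_neg x (hp' i hi)⟩
    rw [map_neg, hp b c n hn, neg_zero]

theorem mem_L {R : Finset ι} {m : ℕ} {k : PG x} :
    k ∈ L x R m ↔ (∀ b c n, n ≤ m → pa x b c n k = 0) ∧ ∀ i ∈ R, Cp x k (x i) 0 := Iff.rfl

theorem L_mono {R R' : Finset ι} {m m' : ℕ} (hR : R ⊆ R') (hm : m ≤ m') :
    L x R' m' ≤ L x R m := by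
  rintro k ⟨h1, h2⟩
  exact ⟨fun b c n hn => h1 b c n (hn.trans hm), fun i hi => h2 i (hR hi)⟩

open Classical in
/-- the filter basis of `0` -/
@[instance_reducible] noncomputable def LB : AddGroupFilterBasis (PG x) :=
  addGroupFilterBasisOfComm {U | ∃ R m, U = (L x R m : Set (PG x))}
    ⟨_, ∅, 0, rfl⟩
    (by
      rintro _ _ ⟨R, m, rfl⟩ ⟨R', m', rfl⟩
      refine ⟨_, ⟨R ∪ R', max m m', rfl⟩, ?_⟩
      intro k hk
      exact ⟨L_mono x Finset.subset_union_left (le_max_left _ _) hk,
        L_mono x Finset.subset_union_right (le_max_right _ _) hk⟩)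
    (by rintro _ ⟨R, m, rfl⟩; exact (L x R m).zero_mem)
    (by
      rintro _ ⟨R, m, rfl⟩
      refine ⟨_, ⟨R, m, rfl⟩, ?_⟩
      rintro _ ⟨a, ha, b, hb, rfl⟩
      exact (L x R m).add_mem ha hb)
    (by
      rintro _ ⟨R, m, rfl⟩
      exact ⟨_, ⟨R, m, rfl⟩, fun a ha => (L x R m).neg_mem ha⟩)

noncomputable instance : TopologicalSpace (PG x) := (LB x).topology

instance : IsTopologicalAddGroup (PG x) := (LB x).isTopologicalAddGroup

theorem mem_nhds {U : Set (PG x)} {p : PG x} :
    U ∈ 𝓝 p ↔ ∃ R m, ∀ k ∈ L x R m, p + k ∈ U := by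
  rw [((LB x).nhds_hasBasis p).mem_iff]
  constructor
  · rintro ⟨V, ⟨R, m, rfl⟩, hV⟩
    exact ⟨R, m, fun k hk => hV ⟨k, hk, rfl⟩⟩
  · rintro ⟨R, m, h⟩
    refine ⟨_, ⟨R, m, rfl⟩, ?_⟩
    rintro _ ⟨k, hk, rfl⟩
    exact h k hk

/-! ### the two factors -/

open Classical in
/-- projection to the indices with first bit `b` -/
noncomputable def pr (b : Bool) : PG x →+ PG x where
  toFun p := fun a => (cd x a p).filter (fun i => x i 0 = b)
  map_zero' := by
    funext a
    exact Finsupp.filter_zero _
  map_add' p q := by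
    funext a
    exact Finsupp.filter_add

open Classical in
theorem cd_pr (b a : Bool) (p : PG x) (i : ι) :
    cd x a (pr x b p) i = if x i 0 = b then cd x a p i else 0 := by
  exact Finsupp.filter_apply _ _ _

/-- the subgroup of the elements supported by the indices with first bit `b` -/
noncomputable def GG (b : Bool) : AddSubgroup (PG x) :=
  AddMonoidHom.eqLocus (pr x b) (AddMonoidHom.id _)

theorem mem_GG {b : Bool} {p : PG x} : p ∈ GG x b ↔ pr x b p = p := Iff.rfl

/-! ### the combinatorial hypothesis -/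

/-- strongly Luzin family: for every closed nowhere dense set `K` of `j`-tuples there is a countable
set `S` of indices such that no injective tuple of indices outside `S` is mapped into `K` -/
def Luz : Prop :=
  ∀ (j : ℕ) (K : Set (Fin j → Cn)), IsClosed K → interior K = ∅ →
    ∃ S : Set ι, S.Countable ∧ ∀ t : Fin j → ι, Injective t → (∀ i, t i ∉ S) → x ∘ t ∉ K

/-- the families that give the counterexample -/
structure Good : Prop where
  inj : Injective x
  luz : Luz x
  unc : ∀ c n, ¬ {i | Agr (x i) c n}.Countable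
  nec : ∀ i n b, ∃ n', n ≤ n' ∧ x i n' = b

variable {x}

theorem Good.dense (h : Good x) (c : Cn) (n : ℕ) : ∃ i, Agr (x i) c n := by
  by_contra hne
  push Not at hne
  apply h.unc c n
  have : {i | Agr (x i) c n} = ∅ := by
    ext i; simp [hne i]
  rw [this]
  exact Set.countable_empty

/-! ### finite separation -/

/-- finitely many indices are separated at some level -/
theorem sep (hx : Injective x) (s : Finset ι) :
    ∃ M, ∀ i ∈ s, ∀ j ∈ s, Agr (x i) (x j) M → i = j := by
  classical
  have h1 : ∀ i j : ι, ∃ M, Agr (x i) (x j) M → i = j := by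
    intro i j
    by_contra hne
    push Not at hne
    exact (hne 0).2 (hx (agr_all fun n => (hne n).1))
  choose f hf using h1
  refine ⟨(s ×ˢ s).sup (fun q => f q.1 q.2), fun i hi j hj hA => hf i j ?_⟩
  refine hA.mono ?_
  exact Finset.le_sup (f := fun q : ι × ι => f q.1 q.2) (b := (i, j))
    (Finset.mk_mem_product hi hj)

/-- finitely many points different from `d` leave some cone of `d` -/
theorem free_cone (s : Finset ι) (d : Cn) (h : ∀ i ∈ s, x i ≠ d) :
    ∃ M, ∀ i ∈ s, ¬ Agr (x i) d M := by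
  classical
  have h1 : ∀ i : ι, ∃ M, i ∈ s → ¬ Agr (x i) d M := by
    intro i
    by_contra hne
    push Not at hne
    exact h i (hne 0).1 (agr_all fun n => (hne n).2)
  choose f hf using h1
  refine ⟨s.sup f, fun i hi hA => hf i hi ?_⟩
  exact hA.mono (Finset.le_sup hi)

/-- the support of `p` -/
noncomputable def sup (p : PG x) : Finset ι := by
  classical
  exact (cd x false p).support ∪ (cd x true p).support

theorem mem_sup {p : PG x} {i : ι} : i ∈ sup p ↔ ∃ b, cd x b p i ≠ 0 := by
  classical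
  unfold sup
  simp only [Finset.mem_union, Finsupp.mem_support_iff]
  constructor
  · rintro (h | h)
    · exact ⟨_, h⟩
    · exact ⟨_, h⟩
  · rintro ⟨b, h⟩
    cases b
    · exact Or.inl h
    · exact Or.inr h

end MP909
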