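import Pool.Agent.Lib_MP_909c8f.LDefs

namespace MP909
open Function Topology

/-- a countable family of open sets which contains a base -/
theorem exists_base (j : ℕ) : ∃ b : ℕ → Set (Fin (j + 1) → Cn), (∀ n, IsOpen (b n)) ∧
    ∀ U : Set (Fin (j + 1) → Cn), IsOpen U → ∀ x ∈ U, ∃ n, x ∈ b n ∧ b n ⊆ U := by
  have hc : (insert (∅ : Set (Fin (j + 1) → Cn))
      (TopologicalSpace.countableBasis (Fin (j + 1) → Cn))).Countable :=
    (TopologicalSpace.countable_countableBasis _).insert _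
  obtain ⟨f, hf⟩ := hc.exists_eq_range ⟨∅, Set.mem_insert _ _⟩
  refine ⟨f, fun n => ?_, fun U hU x hx => ?_⟩
  · have h : f n ∈ insert (∅ : Set (Fin (j + 1) → Cn))
        (TopologicalSpace.countableBasis (Fin (j + 1) → Cn)) := by
      rw [hf]; exact Set.mem_range_self n
    rcases h with h | h
    · rw [h]; exact isOpen_empty
    · exact TopologicalSpace.isOpen_of_mem_countableBasis h
  · obtain ⟨V, hV, hxV, hVU⟩ :=
      (TopologicalSpace.isBasis_countableBasis (Fin (j + 1) → Cn)).exists_subset_of_mem_open hx hU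
    have h : V ∈ Set.range f := by
      rw [← hf]; exact Set.mem_insert_of_mem _ hV
    obtain ⟨n, rfl⟩ := h
    exact ⟨n, hxV, hVU⟩

/-- enumeration of all the open sets.
PROOF. For every `j` let `b_j : ℕ → Set (Fin (j+1) → Cn)` enumerate a countable base
(second countable space) and `en ((s, j), c) = ⟨j, ⋃ n with c n = true, b_j n⟩`.  Every open set is
the union of the basic sets contained in it. -/
theorem exists_enum : ∃ en : IX → Σ j : ℕ, Set (Fin (j + 1) → Cn),
    (∀ a, IsOpen (en a).2) ∧ ∀ (j : ℕ) (U : Set (Fin (j + 1) → Cn)), IsOpen U →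
      ∃ a, en a = ⟨j, U⟩ := by
  classical
  choose b hbo hb using exists_base
  refine ⟨fun a => ⟨a.1.2, {x | ∃ n, a.2 n = true ∧ x ∈ b a.1.2 n}⟩, fun a => ?_,
    fun j U hU => ?_⟩
  · have h : {x | ∃ n, a.2 n = true ∧ x ∈ b a.1.2 n} =
        ⋃ n : ℕ, ⋃ _ : a.2 n = true, b a.1.2 n := by
      ext x
      simp only [Set.mem_setOf_eq, Set.mem_iUnion, exists_prop]
    show IsOpen {x | ∃ n, a.2 n = true ∧ x ∈ b a.1.2 n}
    rw [h]
    exact isOpen_iUnion fun n => isOpen_iUnion fun _ => hbo _ n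
  · refine ⟨((⟨0, fun _ => true⟩, j), fun n => decide (b j n ⊆ U)), ?_⟩
    have h : {x | ∃ n, decide (b j n ⊆ U) = true ∧ x ∈ b j n} = U := by
      ext x
      simp only [Set.mem_setOf_eq, decide_eq_true_eq]
      constructor
      · rintro ⟨n, hn, hx⟩
        exact hn hx
      · intro hx
        obtain ⟨n, hxn, hn⟩ := hb j U hU x hx
        exact ⟨n, hn, hxn⟩
    show (⟨j, {x | ∃ n, decide (b j n ⊆ U) = true ∧ x ∈ b j n}⟩ :
      Σ j : ℕ, Set (Fin (j + 1) → Cn)) = ⟨j, U⟩
    rw [h]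

end MP909
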