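import Pool.Agent.Lib_MP_909c8f.LDefs

namespace MP909
open Function Topology

/-- an injective tuple can be sorted -/
theorem exists_sort {α : Type} (r : α → α → Prop) (hwo : IsWellOrder α r) {j : ℕ} (t : Fin j → α)
    (ht : Injective t) :
    ∃ σ : Equiv.Perm (Fin j), ∀ i i', i < i' → r (t (σ i)) (t (σ i')) := by
  classical
  let _ : LinearOrder α := linearOrderOfSTO r
  have hmono : Monotone (t ∘ (Tuple.sort t)) := Tuple.monotone_sort t
  have hinj : Injective (t ∘ (Tuple.sort t)) := ht.comp (Tuple.sort t).injective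
  have hs : StrictMono (t ∘ (Tuple.sort t)) := hmono.strictMono_of_injective hinj
  exact ⟨Tuple.sort t, fun i i' hii => hs hii⟩

/-- PROOF. `K` closed with empty interior.  For every permutation `π` of `Fin j` the set
`U π = {y | y ∘ π ∉ K}` is open and dense (`y ↦ y ∘ π` is a homeomorphism of `Fin j → Cn`, and `Kᶜ` is
open and dense).  `gen_increasing` gives `S π`, `S = ⋃ π, S π` (finite union).  Let `t` be injective
with values outside `S`.  There is a permutation `π'` with `t ∘ π'` `r`-increasing (sort; e.g. with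
`letI := linearOrderOfSTO r` and `Tuple.sort t`, `Tuple.monotone_sort`, injectivity gives strict
monotonicity).  Apply it to `U (π'⁻¹)`: `x ∘ (t ∘ π') ∈ U (π'⁻¹)` says
`(x ∘ t ∘ π') ∘ π'⁻¹ = x ∘ t ∉ K`. -/
theorem gen_luz (r : IX → IX → Prop) (hwo : IsWellOrder IX r) (x : IX → Cn)
    (hx : ∀ (j : ℕ) (U : Set (Fin j → Cn)), IsOpen U → Dense U →
      ∃ S : Set IX, S.Countable ∧ ∀ t : Fin j → IX, (∀ i i', i < i' → r (t i) (t i')) →
        (∀ i, t i ∉ S) → x ∘ t ∈ U) : Luz x := by
  classical
  intro j K hKc hKi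
  have hd : Dense Kᶜ := interior_eq_empty_iff_dense_compl.1 hKi
  have hop : IsOpen Kᶜ := hKc.isOpen_compl
  let h : Equiv.Perm (Fin j) → (Fin j → Cn) ≃ₜ (Fin j → Cn) := fun π =>
    { toFun := fun y => y ∘ π
      invFun := fun y => y ∘ π.symm
      left_inv := fun y => by funext i; simp
      right_inv := fun y => by funext i; simp
      continuous_toFun := continuous_pi fun i => continuous_apply (π i)
      continuous_invFun := continuous_pi fun i => continuous_apply (π.symm i) }
  choose S hS hS' using fun π => hx j (h π ⁻¹' Kᶜ) (hop.preimage (h π).continuous)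
    (hd.preimage (h π).isOpenMap)
  refine ⟨⋃ π, S π, Set.countable_iUnion hS, ?_⟩
  intro t ht hts
  obtain ⟨σ, hs⟩ := exists_sort r hwo t ht
  have h1 := hS' σ.symm (t ∘ σ) (fun i i' hii => hs i i' hii)
    (fun i hi => hts _ (Set.mem_iUnion.2 ⟨_, hi⟩))
  have h2 : (x ∘ (t ∘ σ)) ∘ σ.symm = x ∘ t := by
    funext i; simp
  intro hK
  apply h1
  change (x ∘ (t ∘ σ)) ∘ σ.symm ∈ K
  rw [h2]
  exact hK

end MP909
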