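import Pool.Agent.Lib_MP_909c8f.Step

namespace MP909
open Function Topology

private theorem rec_exists {α β : Type*} (d : β) (r : α → α → Prop) (wf : WellFounded r)
    (Φ : α → (α → β) → β → Prop)
    (hloc : ∀ a f g, (∀ b, r b a → f b = g b) → ∀ z, Φ a f z → Φ a g z)
    (hex : ∀ a f, ∃ z, Φ a f z) : ∃ x : α → β, ∀ a, Φ a x (x a) := by
  classical
  let F : ∀ a, (∀ b, r b a → β) → β := fun a ih =>
    Classical.choose (hex a fun b => if h : r b a then ih b h else d)
  refine ⟨wf.fix F, fun a => ?_⟩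
  rw [wf.fix_eq F a]
  have h1 := Classical.choose_spec
    (hex a fun b => if _h : r b a then wf.fix F b else d)
  refine hloc a _ _ ?_ _ h1
  intro b hb
  simp only [hb, dite_true]

private theorem isOpen_sec {j : ℕ} {U : Set (Fin (j + 1) → Cn)} (hU : IsOpen U) (y : Fin j → Cn) :
    IsOpen (sec U y) := by
  have h1 : Continuous fun z : Cn => (Fin.snoc (α := fun _ => Cn) y z : Fin (j + 1) → Cn) :=
    Continuous.finSnoc continuous_const continuous_id
  exact hU.preimage h1

/-- the recursion of length `ω₁`.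
PROOF. Well-founded recursion along `r` (`IsWellFounded.fix` or `WellFounded.fix`): given
`x` on `{b | r b a}` apply `step` with `𝒟` = the set of all dense sets of the form
`sec (en b).2 (x ∘ s)` with `r b a` and `s : Fin (en b).1 → {b | r b a}` (open: preimage of an open
set under the continuous map `z ↦ Fin.snoc y z`, `Continuous.finSnoc`; countably many by `hr`:
`Fin j → {b // r b a}` is countable), `P` = the image of `{b | r b a}` under `x`, `n = a.1.1.1` and
`c` = the extension of the string `a.1.1.2` by `false`.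
HINT. It is convenient to prove first the general principle: let `Φ a f z : Prop`
(`f : IX → Cn`) be a condition which only depends on `f` on `{b | r b a}` and such that
`∀ a f, ∃ z, Φ a f z`; then `∃ x, ∀ a, Φ a x (x a)`. -/
theorem exists_gen (r : IX → IX → Prop) (hwo : IsWellOrder IX r)
    (hr : ∀ a, {b | r b a}.Countable) (en : IX → Σ j : ℕ, Set (Fin (j + 1) → Cn))
    (hen : ∀ a, IsOpen (en a).2) :
    ∃ x : IX → Cn, (∀ a, ∀ i : Fin a.1.1.1, x a i = a.1.1.2 i) ∧
      (∀ a b, r b a → x b ≠ x a) ∧ (∀ a n v, ∃ n', n ≤ n' ∧ x a n' = v) ∧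
      ∀ a b, r b a → ∀ s : Fin (en b).1 → IX, (∀ i, r (s i) a) →
        Dense (sec (en b).2 (x ∘ s)) → x a ∈ sec (en b).2 (x ∘ s) := by
  have wf : WellFounded r := hwo.wf
  let Φ : IX → (IX → Cn) → Cn → Prop := fun a f z =>
    (∀ i : Fin a.1.1.1, z i = a.1.1.2 i) ∧ (∀ b, r b a → f b ≠ z) ∧
      (∀ n v, ∃ n', n ≤ n' ∧ z n' = v) ∧
      ∀ b, r b a → ∀ s : Fin (en b).1 → IX, (∀ i, r (s i) a) →
        Dense (sec (en b).2 (f ∘ s)) → z ∈ sec (en b).2 (f ∘ s)
  have hloc : ∀ a f g, (∀ b, r b a → f b = g b) → ∀ z, Φ a f z → Φ a g z := by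
    rintro a f g hfg z ⟨h1, h2, h3, h4⟩
    refine ⟨h1, fun b hb => hfg b hb ▸ h2 b hb, h3, fun b hb s hs => ?_⟩
    have e : f ∘ s = g ∘ s := funext fun i => hfg (s i) (hs i)
    rw [← e]
    exact h4 b hb s hs
  have hex : ∀ a f, ∃ z, Φ a f z := by
    intro a f
    have h𝒟 : {D | ∃ b, r b a ∧ ∃ s : Fin (en b).1 → IX, (∀ i, r (s i) a) ∧
        Dense (sec (en b).2 (f ∘ s)) ∧ D = sec (en b).2 (f ∘ s)}.Countable := by
      have hc : Countable {b // r b a} := (hr a).to_subtype
      have h1 : (⋃ b ∈ {b | r b a}, Set.range fun s : Fin (en b).1 → {b // r b a} =>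
          sec (en b).2 (f ∘ fun i => (s i).1)).Countable :=
        (hr a).biUnion fun b _ => Set.countable_range _
      refine h1.mono ?_
      rintro D ⟨b, hb, s, hs, -, rfl⟩
      refine Set.mem_biUnion (x := b) hb ⟨fun i => ⟨s i, hs i⟩, rfl⟩
    obtain ⟨z, hz1, hz2, hz3, hz4⟩ := step
      {D | ∃ b, r b a ∧ ∃ s : Fin (en b).1 → IX, (∀ i, r (s i) a) ∧
        Dense (sec (en b).2 (f ∘ s)) ∧ D = sec (en b).2 (f ∘ s)} h𝒟
      (by
        rintro D ⟨b, hb, s, hs, -, rfl⟩
        exact isOpen_sec (hen b) _)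
      (by
        rintro D ⟨b, hb, s, hs, hd, rfl⟩
        exact hd)
      (f '' {b | r b a}) ((hr a).image f)
      (fun k => if h : k < a.1.1.1 then a.1.1.2 ⟨k, h⟩ else false) a.1.1.1
    refine ⟨z, ?_, ?_, hz4, ?_⟩
    · intro i
      exact (hz1 i i.2).trans (dif_pos i.2)
    · intro b hb h
      exact hz2 ⟨b, hb, h⟩
    · intro b hb s hs hd
      exact hz3 _ ⟨b, hb, s, hs, hd, rfl⟩
  obtain ⟨x, hx⟩ := rec_exists (fun _ => false : Cn) r wf Φ hloc hex
  exact ⟨x, fun a => (hx a).1, fun a b h => (hx a).2.1 b h, fun a => (hx a).2.2.1,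
    fun a b h s hs => (hx a).2.2.2 b h s hs⟩

end MP909
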