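import Pool.Agent.Lib_MP_909c8f.LDefs

namespace MP909
open Function Topology

/-- the easy half of the Kuratowski-Ulam theorem for open dense sets.
PROOF. Open: the union over `z ∈ B` of the preimages of `U` under the continuous maps
`y ↦ Fin.snoc y z`.  Dense: let `V` be nonempty and open; the set
`W = {w | Fin.init w ∈ V ∧ w (Fin.last j) ∈ B}` is open (`Continuous.finInit`) and nonempty
(contains `Fin.snoc y z`), so it meets `U` in `w = Fin.snoc (Fin.init w) (w (Fin.last j))`
(`Fin.snoc_init_self`), so `Fin.init w ∈ V` is in the set. -/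
theorem proj {j : ℕ} (U : Set (Fin (j + 1) → Cn)) (hU : IsOpen U) (hd : Dense U) (B : Set Cn)
    (hB : IsOpen B) (hne : B.Nonempty) :
    IsOpen {y : Fin j → Cn | ∃ z ∈ B, z ∈ sec U y} ∧
      Dense {y : Fin j → Cn | ∃ z ∈ B, z ∈ sec U y} := by
  constructor
  · have h : {y : Fin j → Cn | ∃ z ∈ B, z ∈ sec U y} =
        ⋃ z ∈ B, (fun y : Fin j → Cn =>
          (Fin.snoc (α := fun _ => Cn) y z : Fin (j + 1) → Cn)) ⁻¹' U := by
      ext y
      simp [sec]
    rw [h]
    refine isOpen_biUnion fun z _ => hU.preimage ?_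
    exact Continuous.finSnoc (A := fun _ => Cn) continuous_id continuous_const
  · rw [dense_iff_inter_open]
    intro V hV hVne
    obtain ⟨y, hy⟩ := hVne
    obtain ⟨z, hz⟩ := hne
    have hW : IsOpen {w : Fin (j + 1) → Cn | Fin.init w ∈ V ∧ w (Fin.last j) ∈ B} := by
      refine IsOpen.inter ?_ ?_
      · exact hV.preimage (continuous_pi fun i => continuous_apply (Fin.castSucc i))
      · exact hB.preimage (continuous_apply (Fin.last j))
    have hWne : {w : Fin (j + 1) → Cn | Fin.init w ∈ V ∧ w (Fin.last j) ∈ B}.Nonempty := by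
      refine ⟨(Fin.snoc (α := fun _ => Cn) y z : Fin (j + 1) → Cn), ?_, ?_⟩
      · rw [Fin.init_snoc]; exact hy
      · rw [Fin.snoc_last]; exact hz
    obtain ⟨w, ⟨hw1, hw2⟩, hwU⟩ := hd.inter_open_nonempty _ hW hWne
    refine ⟨Fin.init w, hw1, w (Fin.last j), hw2, ?_⟩
    show (Fin.snoc (α := fun _ => Cn) (Fin.init w) (w (Fin.last j)) : Fin (j + 1) → Cn) ∈ U
    rw [Fin.snoc_init_self]
    exact hwU

/-- PROOF. Induction on `j` (generalizing `U`).  `j = 0`: `Fin 0 → Cn` is a one point space, the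
dense set `U` is everything (nonempty), `S = ∅`.
`j + 1`: let `B n` (`n : ℕ`) enumerate the nonempty sets of a countable base of `Cn` (e.g.
`TopologicalSpace.exists_countable_basis`, `isBasis_countableBasis`, all nonempty ones).
`U n = {y | ∃ z ∈ B n, z ∈ sec U y}` is open and dense by `proj`; the induction hypothesis gives a
countable `S n`.  Take `b` with `en b = ⟨j, U⟩` and
`S = (⋃ n, S n) ∪ {a | ¬ r b a}`; the last set is countable: `¬ r b a` means `a = b` or `r a b`
(trichotomy).  Let `t : Fin (j+1) → IX` be `r`-increasing with values outside `S`, and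
`t0 = t ∘ Fin.castSucc`, `a = t (Fin.last j)`.  `x ∘ t0 ∈ U n` for all `n`, so
`sec U (x ∘ t0)` meets all the `B n`, i.e. it is dense.  `r b a`, and `r (t0 i) a` for all `i`, so
the genericity `hx` gives `x a ∈ sec U (x ∘ t0)`, that is `x ∘ t = Fin.snoc (x ∘ t0) (x a) ∈ U`
(`Fin.snoc_init_self`).  (Rewriting along `en b = ⟨j, U⟩`: generalize `en b`, or state the
hypothesis `hx` for all `j U` with `en b = ⟨j, U⟩` by `subst`/`obtain`.) -/
theorem gen_increasing (r : IX → IX → Prop) (hwo : IsWellOrder IX r)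
    (hr : ∀ a, {b | r b a}.Countable) (en : IX → Σ j : ℕ, Set (Fin (j + 1) → Cn))
    (hen : ∀ (j : ℕ) (U : Set (Fin (j + 1) → Cn)), IsOpen U → ∃ a, en a = ⟨j, U⟩)
    (x : IX → Cn)
    (hx : ∀ a b, r b a → ∀ s : Fin (en b).1 → IX, (∀ i, r (s i) a) →
        Dense (sec (en b).2 (x ∘ s)) → x a ∈ sec (en b).2 (x ∘ s))
    (j : ℕ) (U : Set (Fin j → Cn)) (hU : IsOpen U) (hd : Dense U) :
    ∃ S : Set IX, S.Countable ∧ ∀ t : Fin j → IX, (∀ i i', i < i' → r (t i) (t i')) →
      (∀ i, t i ∉ S) → x ∘ t ∈ U := by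
  induction j with
  | zero =>
    refine ⟨∅, Set.countable_empty, fun t _ _ => ?_⟩
    obtain ⟨u, hu⟩ := hd.nonempty
    rwa [Subsingleton.elim (x ∘ t) u]
  | succ j ih =>
    obtain ⟨Bs, hBc, hBne, hBb⟩ := TopologicalSpace.exists_countable_basis Cn
    have hS : ∀ B : Bs, ∃ S : Set IX, S.Countable ∧ ∀ t : Fin j → IX,
        (∀ i i', i < i' → r (t i) (t i')) → (∀ i, t i ∉ S) →
          ∃ z ∈ B.1, z ∈ sec U (x ∘ t) := by
      intro B
      have h := proj U hU hd B.1 (hBb.isOpen B.2)
        (Set.nonempty_iff_ne_empty.2 (fun h => hBne (h ▸ B.2)))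
      exact ih _ h.1 h.2
    choose S hSc hS using hS
    obtain ⟨b, hb⟩ := hen j U hU
    refine ⟨(⋃ B, S B) ∪ {a | ¬ r b a}, ?_, ?_⟩
    · have := hBc.to_subtype
      refine (Set.countable_iUnion hSc).union ?_
      refine ((Set.countable_singleton b).union (hr b)).mono ?_
      intro a ha
      rcases trichotomous_of r b a with h | h | h
      · exact absurd h ha
      · exact Or.inl h.symm
      · exact Or.inr h
    · intro t ht htS
      have hdense : Dense (sec U (x ∘ fun i : Fin j => t (Fin.castSucc i))) := by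
        rw [hBb.dense_iff]
        intro o ho hone
        obtain ⟨z, hz, hz'⟩ := hS ⟨o, ho⟩ (fun i : Fin j => t (Fin.castSucc i))
          (fun i i' h => ht _ _ (by simpa using h))
          (fun i h => htS (Fin.castSucc i) (Or.inl (Set.mem_iUnion.2 ⟨⟨o, ho⟩, h⟩)))
        exact ⟨z, hz, hz'⟩
      have hba : r b (t (Fin.last j)) := by
        by_contra h
        exact htS (Fin.last j) (Or.inr h)
      have key : ∀ e : Σ j : ℕ, Set (Fin (j + 1) → Cn), en b = e →
          ∀ s : Fin e.1 → IX, (∀ i, r (s i) (t (Fin.last j))) →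
            Dense (sec e.2 (x ∘ s)) → x (t (Fin.last j)) ∈ sec e.2 (x ∘ s) := by
        rintro e rfl
        exact hx (t (Fin.last j)) b hba
      have h := key ⟨j, U⟩ hb (fun i : Fin j => t (Fin.castSucc i))
        (fun i => ht _ _ (Fin.castSucc_lt_last i)) hdense
      have h2 : (Fin.snoc (α := fun _ => Cn) (x ∘ fun i : Fin j => t (Fin.castSucc i))
          (x (t (Fin.last j))) : Fin (j + 1) → Cn) = x ∘ t :=
        Fin.snoc_init_self (α := fun _ => Cn) (x ∘ t)
      rw [← h2]
      exact h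

end MP909
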