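import Pool.Agent.Lib_MP_909c8f.Wo
import Pool.Agent.Lib_MP_909c8f.Enum
import Pool.Agent.Lib_MP_909c8f.Gen
import Pool.Agent.Lib_MP_909c8f.Incr
import Pool.Agent.Lib_MP_909c8f.GLuz

namespace MP909
open Function Topology

/-- PROOF. `exists_wo` (with `mk_IX` and `hCH`), `exists_enum`, `exists_gen`, `gen_increasing`,
`gen_luz`.  `inj`: for `a ≠ b` trichotomy gives `r a b` or `r b a`.  `unc`: the set
`{i | Agr (x i) c n}` contains all `((⟨n, rs n c⟩, k), c')`, in particular the range of the injective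
map `c' ↦ ((⟨n, rs n c⟩, 0), c')` on the uncountable type `Cn`
(`Cardinal.mk Cn = 𝔠 > ℵ₀`, or `not_countable`, `Uncountable (ℕ → Bool)`). -/
theorem exists_good (hCH : Cardinal.continuum = Cardinal.aleph 1) :
    ∃ x : IX → Cn, Good x := by
  have hCH0 : Cardinal.continuum.{0} = Cardinal.aleph.{0} 1 := by
    apply Cardinal.lift_injective.{_, 0}
    rw [Cardinal.lift_continuum, Cardinal.lift_aleph, Ordinal.lift_one]
    exact hCH
  obtain ⟨r, hwo, hr⟩ := exists_wo (α := IX) (mk_IX.trans hCH0)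
  obtain ⟨en, hen1, hen2⟩ := exists_enum
  obtain ⟨x, hx1, hx2, hx3, hx4⟩ := exists_gen r hwo hr en hen1
  refine ⟨x, ?_, ?_, ?_, ?_⟩
  · intro a b hab
    rcases trichotomous_of r a b with h | h | h
    · exact absurd hab (hx2 b a h)
    · exact h
    · exact absurd hab.symm (hx2 a b h)
  · exact gen_luz r hwo x (fun j U hU hd => gen_increasing r hwo hr en hen2 x hx4 j U hU hd)
  · intro c n hcount
    have hinj : Injective (fun c' : Cn => (((⟨n, rs n c⟩ : Σ m : ℕ, (Fin m → Bool)), 0), c') : Cn → IX) := by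
      intro c1 c2 h
      exact congrArg Prod.snd h
    have hsub : ∀ c' : Cn, ((((⟨n, rs n c⟩ : Σ m : ℕ, (Fin m → Bool)), (0 : ℕ)), c') : IX) ∈
        {i | Agr (x i) c n} := by
      intro c' k hk
      exact hx1 ((((⟨n, rs n c⟩ : Σ m : ℕ, (Fin m → Bool)), (0 : ℕ)), c') : IX) ⟨k, hk⟩
    have h1 : (Set.univ : Set Cn).Countable :=
      (hcount.preimage_of_injOn hinj.injOn).mono (fun c' _ => hsub c')
    have h2 : Countable Cn := Set.countable_univ_iff.mp h1
    have h3 : Cardinal.mk Cn ≤ Cardinal.aleph0 := Cardinal.mk_le_aleph0_iff.mpr h2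
    have h4 : Cardinal.mk Cn = Cardinal.continuum := by
      rw [Cardinal.mk_pi]
      simp
    rw [h4] at h3
    exact absurd h3 (not_le.mpr Cardinal.aleph0_lt_continuum)
  · intro i n b
    exact hx3 i n b

end MP909
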