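import Pool.Agent.Lib_MP_909c8f.Stmt

namespace MP909
open Function Topology

/-- PROOF. Take `A k, B k` from the hypothesis for `ε = 1/(k+1)` (`choose`).  Let
`g0 : X → (ℕ × ℕ → Bool)`, `g0 a (k,n) = true iff a ∈ A k n` (continuous because the sets are
clopen), similarly `g0' : Y → (ℕ × ℕ → Bool)`.  `X' = Set.range g0`, `Y' = Set.range g0'` with the
subspace topologies, second countable as subspaces of a countable product of finite discrete
spaces; `g = Set.rangeFactorization g0`, etc.  `h (u, v) = F (a, b)` for chosen preimages `a` of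
`u`, `b` of `v`.
Key estimate: if `g0 a = g0 a1` and `g0' b = g0' b1` then `F (a, b) = F (a1, b1)`: for every `k`
there is `n` with `a ∈ A k n`, `b ∈ B k n`, then also `a1 ∈ A k n`, `b1 ∈ B k n`, so
`|F (a,b) - F (a1,b1)| ≤ 1/(k+1)`.
Continuity of `h` at `(g0 a, g0' b)`: for given `k` take `n` with `a ∈ A k n`, `b ∈ B k n`; the
set of `(u, v)` with `u (k,n) = true` and `v (k,n) = true` is an open neighbourhood on which `h`
differs from `F (a,b)` by at most `1/(k+1)`. -/
theorem fact {X Y : Type} [TopologicalSpace X] [TopologicalSpace Y] (F : X × Y → ℝ)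
    (hcov : ∀ ε : ℝ, 0 < ε → ∃ (A : ℕ → Set X) (B : ℕ → Set Y), (∀ n, IsClopen (A n)) ∧
      (∀ n, IsClopen (B n)) ∧ (∀ a b, ∃ n, a ∈ A n ∧ b ∈ B n) ∧
      ∀ n, ∀ a ∈ A n, ∀ b ∈ B n, ∀ a' ∈ A n, ∀ b' ∈ B n, |F (a, b) - F (a', b')| ≤ ε) :
    ∃ (X' Y' : Type) (_ : TopologicalSpace X')
    (_ : TopologicalSpace Y') (_ : SecondCountableTopology X') (_ : SecondCountableTopology Y')
    (g : X → X') (g' : Y → Y') (h : X' × Y' → ℝ), Continuous g ∧ Continuous g' ∧ Continuous h ∧
    ∀ z, F z = h (g z.1, g' z.2) := by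
  classical
  have h1 : ∀ k : ℕ, ∃ (A : ℕ → Set X) (B : ℕ → Set Y), (∀ n, IsClopen (A n)) ∧
      (∀ n, IsClopen (B n)) ∧ (∀ a b, ∃ n, a ∈ A n ∧ b ∈ B n) ∧
      ∀ n, ∀ a ∈ A n, ∀ b ∈ B n, ∀ a' ∈ A n, ∀ b' ∈ B n,
        |F (a, b) - F (a', b')| ≤ 1 / ((k : ℝ) + 1) := fun k => hcov _ (by positivity)
  choose A B hA hB hAB hF using h1
  let g0 : X → (ℕ × ℕ → Bool) := fun a p => (A p.1 p.2).boolIndicator a
  let g0' : Y → (ℕ × ℕ → Bool) := fun b p => (B p.1 p.2).boolIndicator b
  have hg0 : Continuous g0 :=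
    continuous_pi fun p => (continuous_boolIndicator_iff_isClopen (A p.1 p.2)).2 (hA p.1 p.2)
  have hg0' : Continuous g0' :=
    continuous_pi fun p => (continuous_boolIndicator_iff_isClopen (B p.1 p.2)).2 (hB p.1 p.2)
  have hmA : ∀ a k n, a ∈ A k n ↔ g0 a (k, n) = true := fun a k n =>
    (A k n).mem_iff_boolIndicator a
  have hmB : ∀ b k n, b ∈ B k n ↔ g0' b (k, n) = true := fun b k n =>
    (B k n).mem_iff_boolIndicator b
  -- chosen preimages
  let s : Set.range g0 → X := fun u => u.2.choose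
  have hs : ∀ u : Set.range g0, g0 (s u) = u := fun u => u.2.choose_spec
  let s' : Set.range g0' → Y := fun v => v.2.choose
  have hs' : ∀ v : Set.range g0', g0' (s' v) = v := fun v => v.2.choose_spec
  let h : Set.range g0 × Set.range g0' → ℝ := fun z => F (s z.1, s' z.2)
  have key : ∀ a a1 b b1, g0 a = g0 a1 → g0' b = g0' b1 → F (a, b) = F (a1, b1) := by
    intro a a1 b b1 h1 h2
    have hle : ∀ k : ℕ, |F (a, b) - F (a1, b1)| ≤ 1 / ((k : ℝ) + 1) := by
      intro k
      obtain ⟨n, hn1, hn2⟩ := hAB k a b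
      refine hF k n a hn1 b hn2 a1 ?_ b1 ?_
      · rw [hmA, ← h1, ← hmA]; exact hn1
      · rw [hmB, ← h2, ← hmB]; exact hn2
    have h0 : |F (a, b) - F (a1, b1)| ≤ 0 :=
      ge_of_tendsto' tendsto_one_div_add_atTop_nhds_zero_nat hle
    have h3 := abs_nonpos_iff.1 h0
    linarith
  have hh : Continuous h := by
    rw [continuous_iff_continuousAt]
    rintro ⟨u, v⟩
    rw [Metric.continuousAt_iff']
    intro ε hε
    obtain ⟨k, hk⟩ := exists_nat_one_div_lt hε
    obtain ⟨n, hn1, hn2⟩ := hAB k (s u) (s' v)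
    have e1 : (fun z : Set.range g0 × Set.range g0' => (z.1 : ℕ × ℕ → Bool) (k, n)) (u, v) = true := by
      show (u : ℕ × ℕ → Bool) (k, n) = true
      rw [← hs u, ← hmA]; exact hn1
    have e2 : (fun z : Set.range g0 × Set.range g0' => (z.2 : ℕ × ℕ → Bool) (k, n)) (u, v) = true := by
      show (v : ℕ × ℕ → Bool) (k, n) = true
      rw [← hs' v, ← hmB]; exact hn2
    have c1 : Continuous (fun z : Set.range g0 × Set.range g0' => (z.1 : ℕ × ℕ → Bool) (k, n)) :=
      (continuous_apply (k, n)).comp (continuous_subtype_val.comp continuous_fst)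
    have c2 : Continuous (fun z : Set.range g0 × Set.range g0' => (z.2 : ℕ × ℕ → Bool) (k, n)) :=
      (continuous_apply (k, n)).comp (continuous_subtype_val.comp continuous_snd)
    have o1 : ∀ᶠ z in 𝓝 (u, v), (fun z : Set.range g0 × Set.range g0' =>
        (z.1 : ℕ × ℕ → Bool) (k, n)) z = true :=
      c1.continuousAt.eventually ((isOpen_discrete {true}).mem_nhds (by simpa using e1))
    have o2 : ∀ᶠ z in 𝓝 (u, v), (fun z : Set.range g0 × Set.range g0' =>
        (z.2 : ℕ × ℕ → Bool) (k, n)) z = true :=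
      c2.continuousAt.eventually ((isOpen_discrete {true}).mem_nhds (by simpa using e2))
    filter_upwards [o1, o2] with z hz1 hz2
    rw [Real.dist_eq]
    refine lt_of_le_of_lt (hF k n (s z.1) ?_ (s' z.2) ?_ (s u) hn1 (s' v) hn2) hk
    · rw [hmA, hs]; exact hz1
    · rw [hmB, hs']; exact hz2
  refine ⟨Set.range g0, Set.range g0', inferInstance, inferInstance, inferInstance, inferInstance,
    Set.rangeFactorization g0, Set.rangeFactorization g0', h, ?_, ?_, hh, ?_⟩
  · exact hg0.subtype_mk _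
  · exact hg0'.subtype_mk _
  · rintro ⟨a, b⟩
    exact key a _ b _ (hs (Set.rangeFactorization g0 a)).symm
      (hs' (Set.rangeFactorization g0' b)).symm

end MP909
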