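import Pool.Agent.Lib_MP_909c8f.Top
import Pool.Agent.Lib_MP_909c8f.Ex

namespace MP909
open Function Topology
variable {ι : Type} {x : ι → Cn}

open Classical in
/-- the function which is `1` if both parities are odd and there is a compatible branch -/
noncomputable def fn (x : ι → Cn) (p : PG x) : ℝ :=
  if (∀ b, pa x b (fun _ => false) 0 p = 1) ∧ ∃ d, Cp x p d 0 then 1 else 0

/-- PROOF. The set is clopen: `isClopen_pa` and `isClopen_ex` (`N = 0`, `agr_zero`); the indicator of a
clopen set is continuous (`IsClopen.continuous...`, `IsLocallyConstant`, `continuous_indicator`..). -/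
theorem continuous_fn (hx : Injective x) (hd : ∀ c n, ∃ i, Agr (x i) c n) :
    Continuous (fn x) := by
  have hS : IsClopen {p : PG x | (∀ b, pa x b (fun _ => false) 0 p = 1) ∧ ∃ d, Cp x p d 0} := by
    have h1 := isClopen_pa x false (fun _ => false) 0 1
    have h2 := isClopen_pa x true (fun _ => false) 0 1
    have h3 := isClopen_ex x hx hd (fun _ => false) 0
    have e : {p : PG x | (∀ b, pa x b (fun _ => false) 0 p = 1) ∧ ∃ d, Cp x p d 0} =
        ({p : PG x | pa x false (fun _ => false) 0 p = 1} ∩
          {p : PG x | pa x true (fun _ => false) 0 p = 1}) ∩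
          {p : PG x | ∃ d, Agr d (fun _ => false) 0 ∧ Cp x p d 0} := by
      ext p
      simp only [Set.mem_ofPred_eq, Set.mem_inter_iff]
      constructor
      · rintro ⟨h, d, hd⟩
        exact ⟨⟨h false, h true⟩, d, agr_zero _ _, hd⟩
      · rintro ⟨⟨h, h'⟩, d, _, hd⟩
        refine ⟨fun b => ?_, d, hd⟩
        cases b
        · exact h
        · exact h'
    rw [e]
    exact (h1.inter h2).inter h3
  classical
  unfold fn
  refine Continuous.if ?_ continuous_const continuous_const
  intro a ha
  rw [hS.frontier_eq] at ha
  exact absurd ha (Set.notMem_empty a)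

/-- the element with left coordinate `single a 1` and right coordinate `single b 1` -/
noncomputable def el (x : ι → Cn) (a b : ι) : PG x :=
  fun c => if c then Finsupp.single b 1 else Finsupp.single a 1

theorem cd_el (a b : ι) (c : Bool) :
    cd x c (el x a b) = if c then Finsupp.single b 1 else Finsupp.single a 1 := rfl

/-- PROOF. Parities of level `0` are `1` (`ph_single`, `agr_zero`).  `d = x a` is compatible with
`el x a a` by `Cp_of_free`. -/
theorem fn_self (a : ι) : fn x (el x a a) = 1 := by
  have h : (∀ b, pa x b (fun _ => false) 0 (el x a a) = 1) ∧ ∃ d, Cp x (el x a a) d 0 := by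
    refine ⟨fun b => ?_, x a, ?_⟩
    · rw [pa_apply, cd_el]
      cases b
      · simp only [Bool.false_eq_true, if_false]
        rw [ph_single, if_pos (agr_zero _ _)]
      · simp only [if_true]
        rw [ph_single, if_pos (agr_zero _ _)]
    · apply Cp_of_free
      intro b i hi _
      have : i = a := by
        by_contra hne
        apply hi
        rw [cd_el]
        cases b
        · simp only [Bool.false_eq_true, if_false]
          exact Finsupp.single_eq_of_ne hne
        · simp only [if_true]
          exact Finsupp.single_eq_of_ne hne
      rw [this]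
  unfold fn
  rw [if_pos h]

theorem fn_branch {p : PG x} (h : 1 / 2 < fn x p) : ∃ d, Cp x p d 0 := by
  unfold fn at h
  split_ifs at h with h1
  · exact h1.2
  · norm_num at h

theorem el_key {a b : ι} {d : Cn} (h : Cp x (el x a b) d 0) {n : ℕ} (hn : Agr (x a) (x b) n)
    (hne : x a n ≠ x b n) : x a n = true ∧ x b n = false := by
  classical
  have hA : ∀ m, d m = true → Agr (x a) d m → x a m = true := by
    intro m hm hag
    have h1 := h m (Nat.zero_le m)
    unfold Cq at h1
    rw [hm, Bool.not_true, pa_apply, pa_apply, cd_el] at h1
    simp only [Bool.false_eq_true, if_false] at h1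
    rw [ph_single, ph_single, if_pos hag] at h1
    split_ifs at h1 with h2
    · rw [(agr_succ.1 h2).2, hm]
    · exact absurd h1 (by decide)
  have hB : ∀ m, d m = false → Agr (x b) d m → x b m = false := by
    intro m hm hag
    have h1 := h m (Nat.zero_le m)
    unfold Cq at h1
    rw [hm, Bool.not_false, pa_apply, pa_apply, cd_el] at h1
    simp only [if_true] at h1
    rw [ph_single, ph_single, if_pos hag] at h1
    split_ifs at h1 with h2
    · rw [(agr_succ.1 h2).2, hm]
    · exact absurd h1 (by decide)
  have hind : ∀ m, m ≤ n → Agr (x a) d m := by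
    intro m
    induction m with
    | zero => intro _; exact agr_zero _ _
    | succ m ih =>
      intro hm
      have h1 := ih (by omega)
      have h2 : x a m = x b m := hn m (by omega)
      have h3 : Agr (x b) d m := (hn.mono (by omega : m ≤ n)).symm.trans h1
      refine agr_succ.2 ⟨h1, ?_⟩
      cases hd : d m with
      | true => exact hA m hd h1
      | false => rw [h2]; exact hB m hd h3
  have h1 := hind n le_rfl
  have h3 : Agr (x b) d n := hn.symm.trans h1
  cases hd : d n with
  | true =>
    have h4 := hA n hd h1
    refine ⟨h4, ?_⟩
    rw [h4] at hne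
    cases hb : x b n with
    | true => exact absurd hb.symm hne
    | false => rfl
  | false =>
    have h4 := hB n hd h3
    refine ⟨?_, h4⟩
    rw [h4] at hne
    cases ha : x a n with
    | true => rfl
    | false => exact absurd ha hne

/-- if a branch is compatible with both `el x a b` and another one with `el x b a` then `a = b`.
PROOF. `1/2 < fn ..` means `fn .. = 1`, so there is `d` with `Cp x (el x a b) d 0`.
For the left coordinate `single a 1` this means (`ph_single`): for all `n` with `d n = true`,
`Agr (x a) d n ↔ Agr (x a) d (n+1)`; for the right coordinate: for all `n` with `d n = false`,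
`Agr (x b) d n ↔ Agr (x b) d (n+1)`.
Suppose `x a ≠ x b` and let `n` be the first place with `x a n ≠ x b n` (`Nat.find`).
Claim: `x a n = true`, `x b n = false`.  [In words `x b ≤ d ≤ x a` in the lexicographic order.]
Proof of the claim: if `x a ≠ d` let `n1` be the first place where they differ; then
`Agr (x a) d n1`, `¬ Agr (x a) d (n1+1)`, so `d n1 = false`, `x a n1 = true`.  Similarly if
`x b ≠ d` with first difference `n2` then `d n2 = true`, `x b n2 = false`.  If `x a = d` then
`n = n2` and `x a n = d n2 = true`.  If `x b = d` then `n = n1`, `x a n = true`, `x b n = false`.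
Otherwise `n1 ≠ n2` (as `d n1 ≠ d n2`); `n = min n1 n2`, and in both cases `x a n = true`
and `x b n = false`.
The claim for `(b, a)` gives `x b n = true`, contradiction.  Hence `x a = x b`, `a = b`. -/
theorem fn_anti (hx : Injective x) (a b : ι) (h1 : 1 / 2 < fn x (el x a b))
    (h2 : 1 / 2 < fn x (el x b a)) : a = b := by
  obtain ⟨d, hd⟩ := fn_branch h1
  obtain ⟨d', hd'⟩ := fn_branch h2
  by_contra hab
  have hne : ∃ n, x a n ≠ x b n := by
    by_contra hcon
    push Not at hcon
    exact hab (hx (funext hcon))
  classical
  have hmin : Agr (x a) (x b) (Nat.find hne) := by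
    intro k hk
    by_contra hk2
    exact absurd hk2 (Nat.find_min hne hk)
  have h3 := Nat.find_spec hne
  have k1 := el_key hd hmin h3
  have k2 := el_key hd' hmin.symm (Ne.symm h3)
  rw [k1.1] at k2
  exact absurd k2.2 (by decide)

end MP909
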