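import Pool.Agent.Lib_MP_909c8f.Tpl

namespace MP909
open Function Topology
variable {ι : Type} (x : ι → Cn)

/-- PROOF. `cd x b (pT x u σ t) = cd x b u + ∑ i, single (t i) (σ i b)`. -/
theorem cd_pT (u : PG x) {j : ℕ} (σ : Fin j → Bool → ZMod 2) (t : Fin j → ι) (b : Bool) :
    cd x b (pT x u σ t) = cd x b u + ∑ i, Finsupp.single (t i) (σ i b) := by
  unfold pT
  rw [map_add, map_sum]
  rfl

/-- the support points of the variable part -/
private theorem gc_supp {j : ℕ} (σ : Fin j → Bool → ZMod 2) (t : Fin j → ι) (b : Bool) (a : ι)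
    (h : cd x b (∑ i, sg x (t i) (σ i)) a ≠ 0) : ∃ i, a = t i := by
  classical
  by_contra hne
  push Not at hne
  apply h
  rw [map_sum, Finsupp.finsetSum_apply]
  apply Finset.sum_eq_zero
  intro i _
  rw [cd_sg, Finsupp.single_eq_of_ne (hne i)]

private theorem gc_supp' (u : PG x) {j : ℕ} (σ : Fin j → Bool → ZMod 2) (t : Fin j → ι)
    (b : Bool) (a : ι) (h : cd x b (pT x u σ t) a ≠ 0) : cd x b u a ≠ 0 ∨ ∃ i, a = t i := by
  by_cases h1 : cd x b u a = 0
  · right
    apply gc_supp x σ t b a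
    intro h2
    apply h
    unfold pT
    rw [map_add, Finsupp.add_apply, h1, h2, add_zero]
  · exact Or.inl h1

/-- PROOF. `pa x b c N (sg x a s)` only depends on whether `Agr (x a) c N` (`ph_single`). -/
theorem pa_pT_congr (u : PG x) {j : ℕ} (σ : Fin j → Bool → ZMod 2) (t t' : Fin j → ι) (N : ℕ)
    (h : ∀ i, Agr (x (t' i)) (x (t i)) N) (b : Bool) (c : Cn) :
    pa x b c N (pT x u σ t') = pa x b c N (pT x u σ t) := by
  classical
  rw [pa_apply, pa_apply, cd_pT, cd_pT, map_add, map_add, map_sum, map_sum]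
  congr 1
  refine Finset.sum_congr rfl fun i _ => ?_
  rw [ph_single, ph_single]
  have h1 : Agr (x (t' i)) c N ↔ Agr (x (t i)) c N :=
    ⟨fun h3 => (h i).symm.trans h3, fun h3 => (h i).trans h3⟩
  by_cases h2 : Agr (x (t i)) c N
  · rw [if_pos h2, if_pos (h1.2 h2)]
  · rw [if_neg h2, if_neg (fun h3 => h2 (h1.1 h3))]

/-- PROOF (with `T = pT x u σ t`). The parity of level `N` is
`e (rs N c) b = pa x b c N T` for all `c` by choice of `e`.  For `r ∈ R`: `T - u = ∑ sg` has no
support point in the cone of `x r` of level `N` (`h1`), `Cp_of_free`.  For `i : Fin j` take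
`d = x (t i)`: the support points of `T` are in `R` (`hu`) or of the form `t i'`; those in the cone
of `x (t i)` of level `N` are equal to `t i` by `h1` (for `R`) and `h2`; `Cp_of_free`. -/
theorem mem_OS_self (u : PG x) {j : ℕ} (σ : Fin j → Bool → ZMod 2) (t : Fin j → ι)
    (R : Finset ι) (N : ℕ) (hu : ∀ b a, cd x b u a ≠ 0 → a ∈ R)
    (h1 : ∀ r ∈ R, ∀ i, ¬ Agr (x r) (x (t i)) N)
    (h2 : ∀ i i', Agr (x (t i)) (x (t i')) N → i = i')
    (e : (Fin N → Bool) → Bool → ZMod 2) (he : ∀ b c, pa x b c N (pT x u σ t) = e (rs N c) b) :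
    pT x u σ t ∈ OS x N e R u (Finset.univ.image fun i => rs N (x (t i))) := by
  refine ⟨he, fun r hr => ?_, fun s hs => ?_⟩
  · apply Cp_of_free
    intro b a ha hA
    have h3 : pT x u σ t - u = ∑ i, sg x (t i) (σ i) := by
      unfold pT
      exact add_sub_cancel_left _ _
    rw [h3] at ha
    obtain ⟨i, rfl⟩ := gc_supp x σ t b a ha
    exact absurd hA.symm (h1 r hr i)
  · obtain ⟨i, -, rfl⟩ := Finset.mem_image.1 hs
    refine ⟨x (t i), rfl, ?_⟩
    apply Cp_of_free
    intro b a ha hA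
    rcases gc_supp' x u σ t b a ha with h3 | ⟨i', rfl⟩
    · exact absurd hA (h1 a (hu b a h3) i)
    · rw [h2 i' i hA]

open Classical in
/-- PROOF. Put `k = p - pT x u σ t'`.
(a) `pa x b c N k = 0` for all `b c`: by `hpar` and `pa_pT_congr`; hence all parities of level
`≤ N` vanish (`pa_level`), in particular those of level `≤ m`.
(b) `r ∈ R`: `Cp x k (x r) 0`.  For `n < N` use (a) and `Cq_of_low`.  For `n ≥ N`:
`k = (p - u) - ∑ i, sg x (t' i) (σ i)`; the first term is fine by `hR`; the second has no support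
point in the cone of `x r` of level `N` (such a point `x (t' i)` agrees with `x (t i)` below `N`,
contradiction to `h1`), `Cp_of_free`, `Cp_sub`.
(c) `i : Fin j`: `Cp x k (x (t' i)) 0`.  For `n < N` as before.  For `n ≥ N`:
`Cp x (pT x u σ t') (x (t' i)) N` by `Cp_of_free`: the support points of `pT x u σ t'` are in `R`
(`hu`; not in the cone of level `N` of `x (t' i)`, by `h1`) or of the form `t' i'`, and
`Agr (x (t' i')) (x (t' i)) N` gives `Agr (x (t i')) (x (t i)) N`, so `i' = i` by `h2`.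
`Cp x p (x (t' i)) N`: `Cp_glue` with `c = d i`, `c' = x (t' i)` and level `M`: below `M` by `hd`,
from `M` on by `Cp_of_free` (no support point of `p` is in the cone of `d i` of level `M`, `hM`).
(if `M < N` the glueing is trivial: `Cp_glue` works for all `N, M`, then the first condition is
empty; note that `Cp x p (x (t' i)) M → Cp x p (x (t' i)) N` is part of `Cp_glue`.) -/
theorem good_case (u : PG x) {j : ℕ} (σ : Fin j → Bool → ZMod 2) (t t' : Fin j → ι)
    (R : Finset ι) (N M m : ℕ) (hmN : m ≤ N) (hu : ∀ b a, cd x b u a ≠ 0 → a ∈ R)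
    (h1 : ∀ r ∈ R, ∀ i, ¬ Agr (x r) (x (t i)) N)
    (h2 : ∀ i i', Agr (x (t i)) (x (t i')) N → i = i')
    (p : PG x) (hpar : ∀ b c, pa x b c N p = pa x b c N (pT x u σ t))
    (hR : ∀ r ∈ R, Cp x (p - u) (x r) N)
    (d : Fin j → Cn) (hd : ∀ i, Cp x p (d i) N) (hdt : ∀ i, Agr (d i) (x (t i)) N)
    (hM : ∀ i b a, cd x b p a ≠ 0 → ¬ Agr (x a) (d i) M)
    (ht' : ∀ i, Agr (x (t' i)) (d i) (max M N)) :
    p - pT x u σ t' ∈ L x (R ∪ Finset.univ.image t') m := by
  have hag : ∀ i, Agr (x (t' i)) (x (t i)) N := fun i =>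
    ((ht' i).mono (le_max_right _ _)).trans (hdt i)
  have hpa : ∀ b c, pa x b c N (p - pT x u σ t') = 0 := by
    intro b c
    rw [map_sub, pa_pT_congr x u σ t t' N hag, hpar, sub_self]
  have hlow : ∀ b c n, n ≤ N → pa x b c n (p - pT x u σ t') = 0 := fun b c n hn =>
    pa_level x (fun c => hpa b c) n hn c
  refine (mem_L x).2 ⟨fun b c n hn => hlow b c n (hn.trans hmN), fun a ha => ?_⟩
  suffices hS : Cp x (p - pT x u σ t') (x a) N by
    intro n _
    rcases lt_or_ge n N with hn | hn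
    · exact Cq_of_low x hlow hn
    · exact hS n hn
  rcases Finset.mem_union.1 ha with ha | ha
  · have h3 : p - pT x u σ t' = (p - u) - ∑ i, sg x (t' i) (σ i) := by
      unfold pT
      abel
    rw [h3]
    refine Cp_sub x (hR a ha) ?_
    apply Cp_of_free
    intro b i' hi' hA
    obtain ⟨i, rfl⟩ := gc_supp x σ t' b i' hi'
    exact absurd (hA.symm.trans (hag i)) (h1 a ha i)
  · obtain ⟨i, -, rfl⟩ := Finset.mem_image.1 ha
    refine Cp_sub x ?_ ?_
    · refine Cp_glue x (M := M) ((ht' i).mono (le_max_left _ _)).symm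
        (fun n hn _ => hd i n hn) ?_
      apply Cp_of_free
      intro b a' ha' hA
      exact absurd (hA.trans ((ht' i).mono (le_max_left _ _))) (hM i b a' ha')
    · apply Cp_of_free
      intro b a' ha' hA
      rcases gc_supp' x u σ t' b a' ha' with h3 | ⟨i', rfl⟩
      · exact absurd (hA.trans (hag i)) (h1 a' (hu b a' h3) i)
      · have h4 : Agr (x (t i')) (x (t i)) N := (hag i').symm.trans (hA.trans (hag i))
        rw [h2 i' i h4]

end MP909
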