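import Pool.Agent.Lib_MP_909c8f.Defs

namespace MP909
open Function Topology

/-- the index type: a finite string, a number and a point of the Cantor set -/
abbrev IX := ((Σ m : ℕ, (Fin m → Bool)) × ℕ) × Cn

/-- the section of `U ⊆ Cn^(j+1)` at `y` -/
def sec {j : ℕ} (U : Set (Fin (j + 1) → Cn)) (y : Fin j → Cn) : Set Cn :=
  {z | (Fin.snoc (α := fun _ => Cn) y z : Fin (j + 1) → Cn) ∈ U}

end MP909
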