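import Pool.Agent.Lib_MP_909c8f.Tpl
import Pool.Agent.Lib_MP_909c8f.Top

namespace MP909
open Function Topology
variable {ι : Type} {x : ι → Cn}

private theorem pa_r (p p' : PG x) (b : Bool) (c : Cn) (n : ℕ) (hn : 1 ≤ n) :
    pa x b c n (pr x false p + pr x true p') = pa x b c n (if c 0 = true then p' else p) := by
  rw [map_add, pa_pr x false b c n hn, pa_pr x true b c n hn]
  cases h : c 0 <;> simp

private theorem Cq_r (p p' u : PG x) (c : Cn) (n : ℕ) (hn : 1 ≤ n)
    (h : Cq x ((if c 0 = true then p' else p) - u) c n) :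
    Cq x (pr x false p + pr x true p' - u) c n := by
  unfold Cq at *
  rw [map_sub, map_sub, pa_r p p' _ c n hn, pa_r p p' _ c (n + 1) (Nat.le_succ_of_le hn), ← map_sub,
    ← map_sub]
  exact h

private theorem Cq_r0 (p p' : PG x) (c : Cn) (n : ℕ) (hn : 1 ≤ n)
    (h : Cq x (if c 0 = true then p' else p) c n) :
    Cq x (pr x false p + pr x true p') c n := by
  have h1 := Cq_r p p' 0 c n hn (by rwa [sub_zero])
  rwa [sub_zero] at h1

/-- the sets `OS` are rectangles.
PROOF. Put `r = pr x false p + pr x true p'` and for a branch `c` let `p_c = p` if `c 0 = false`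
and `p_c = p'` if `c 0 = true`.  By `pa_pr` we get `pa x b c n r = pa x b c n (p_c)` for `n ≥ 1`;
hence `Cq x r c n ↔ Cq x (p_c) c n` for `n ≥ 1`, and the same after subtracting `u`.  So all the
three conditions at levels `≥ N ≥ 1` hold for `r`; in the third one take for `s ∈ S` the witness
`d` of `p` if `s 0 = false` (then `d 0 = false`) and that of `p'` if `s 0 = true`. -/
theorem rect_OS (N : ℕ) (hN : 1 ≤ N) (e : (Fin N → Bool) → Bool → ZMod 2) (R : Finset ι)
    (u : PG x) (S : Finset (Fin N → Bool)) (p p' : PG x) (hp : p ∈ OS x N e R u S)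
    (hp' : p' ∈ OS x N e R u S) : pr x false p + pr x true p' ∈ OS x N e R u S := by
  obtain ⟨h1, h2, h3⟩ := hp
  obtain ⟨h1', h2', h3'⟩ := hp'
  refine ⟨fun b c => ?_, fun i hi n hn => ?_, fun s hs => ?_⟩
  · rw [pa_r p p' b c N hN]
    split_ifs
    · exact h1' b c
    · exact h1 b c
  · refine Cq_r p p' u (x i) n (hN.trans hn) ?_
    split_ifs
    · exact h2' i hi n hn
    · exact h2 i hi n hn
  · cases h0 : s ⟨0, hN⟩ with
    | false =>
      obtain ⟨d, hd, hd'⟩ := h3 s hs
      have hd0 : d 0 = false := by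
        have := congrFun hd ⟨0, hN⟩
        rw [h0] at this
        exact this
      refine ⟨d, hd, fun n hn => Cq_r0 p p' d n (hN.trans hn) ?_⟩
      rw [if_neg (by simp [hd0])]
      exact hd' n hn
    | true =>
      obtain ⟨d, hd, hd'⟩ := h3' s hs
      have hd0 : d 0 = true := by
        have := congrFun hd ⟨0, hN⟩
        rw [h0] at this
        exact this
      refine ⟨d, hd, fun n hn => Cq_r0 p p' d n (hN.trans hn) ?_⟩
      rw [if_pos hd0]
      exact hd' n hn

end MP909
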