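import Pool.Agent.Lib_MP_909c8f.Core
import Pool.Agent.Lib_MP_909c8f.ClOS
import Pool.Agent.Lib_MP_909c8f.RectOS
import Pool.Agent.Lib_MP_909c8f.Fact

namespace MP909
open Function Topology
variable {ι : Type} {x : ι → Cn}

/-- PROOF. Let `F' : G × H → ℝ` be continuous, where `G = Multiplicative (GG x false)`,
`H = Multiplicative (GG x true)`.  Define `F : PG x → ℝ`,
`F p = F' (ofAdd ⟨pr x false p, _⟩, ofAdd ⟨pr x true p, _⟩)` (`pr_pr`, `mem_GG`); it is continuous by
`continuous_pr`.  We verify the hypothesis of `fact` for `F'` and `ε`: `core h F _ (ε / 2)` gives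
`Z`.  Let `I` be the set of all tuples `(N, e, R, u, S)` (in
`Σ N : ℕ, ((Fin N → Bool) → Bool → ZMod 2) × Finset ι × PG x × Finset (Fin N → Bool)`) with
`1 ≤ N`, `↑R ⊆ Z`, support of `u` in `Z` and `∃ q : ℚ, ∀ p' ∈ OS .., |F p' - q| ≤ ε / 2`.  It is
countable by `countable_finset` and `countable_PG`; it is nonempty (`core` for `p = 0`), so it is
the range of a sequence (`Set.Countable.exists_eq_range`).  For a tuple put
`A = {g | ∃ h', g + h' ∈ OS ..}` and `B = {h' | ∃ g, g + h' ∈ OS ..}` (elements of `GG x false`,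
`GG x true` coerced to `PG x`).
* If `g ∈ A` and `h' ∈ B` then `g + h' ∈ OS`: from `g + h1 ∈ OS`, `g1 + h' ∈ OS` and `rect_OS`
  (`pr x false (g + h1) = g`, `pr x true (g1 + h') = h'`).
* `A` is clopen: if `OS` (restricted) is empty, `A = ∅`.  Otherwise fix `g0 + h0 ∈ OS`; then
  `A = {g | g + h0 ∈ OS}` by the previous point, clopen by `isClopen_OS` and continuity of
  `g ↦ g + h0`.  The same for `B`.
* covering: for `(g, h')` apply the property of `Z` to `p = g + h'`.
* oscillation: `F' (g, h') = F (g + h')` for `g ∈ G`, `h' ∈ H` (`pr_pr`), so both values are within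
  `ε / 2` of `q`. -/
theorem mult (h : Good x) :
    MultRFactorizable (Multiplicative (GG x false)) (Multiplicative (GG x true)) := by
  classical
  intro F' hF'
  apply fact F'
  intro ε hε
  have hidem : ∀ (b : Bool) (p : PG x), pr x b p ∈ GG x b := by
    intro b p
    rw [mem_GG, pr_pr, if_pos rfl]
  let toB : ∀ b : Bool, PG x → Multiplicative (GG x b) :=
    fun b p => Multiplicative.ofAdd ⟨pr x b p, hidem b p⟩
  have htoB : ∀ b, Continuous (toB b) :=
    fun b => continuous_ofAdd.comp ((continuous_pr x b).subtype_mk _)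
  let F : PG x → ℝ := fun p => F' (toB false p, toB true p)
  have hF : Continuous F := hF'.comp ((htoB false).prodMk (htoB true))
  obtain ⟨Z, hZ, hcore⟩ := core h F hF (ε / 2) (by positivity)
  let co : ∀ b : Bool, Multiplicative (GG x b) → PG x :=
    fun b g => ((Multiplicative.toAdd g : GG x b) : PG x)
  have hco : ∀ b g, pr x b (co b g) = co b g := fun b g =>
    (mem_GG x).1 (Multiplicative.toAdd g).2
  have hco' : ∀ b b' g, b ≠ b' → pr x b (co b' g) = 0 := by
    intro b b' g hne
    rw [← hco b' g, pr_pr, if_neg hne]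
  have hcoc : ∀ b, Continuous (co b) := fun b =>
    continuous_subtype_val.comp continuous_toAdd
  have hprf : ∀ g h', pr x false (co false g + co true h') = co false g := by
    intro g h'
    rw [map_add, hco, hco' false true h' (by decide), add_zero]
  have hprt : ∀ g h', pr x true (co false g + co true h') = co true h' := by
    intro g h'
    rw [map_add, hco, hco' true false g (by decide), zero_add]
  have hFF : ∀ g h', F (co false g + co true h') = F' (g, h') := by
    intro g h'
    have e1 : toB false (co false g + co true h') = g := by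
      apply Multiplicative.toAdd.injective
      apply Subtype.ext
      exact hprf g h'
    have e2 : toB true (co false g + co true h') = h' := by
      apply Multiplicative.toAdd.injective
      apply Subtype.ext
      exact hprt g h'
    show F' (toB false (co false g + co true h'), toB true (co false g + co true h')) = _
    rw [e1, e2]
  let T := Σ N : ℕ, (((Fin N → Bool) → Bool → ZMod 2) × Finset ι × PG x × Finset (Fin N → Bool))
  let O : T → Set (PG x) := fun a => OS x a.1 a.2.1 a.2.2.1 a.2.2.2.1 a.2.2.2.2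
  let I : Set T := {a | 1 ≤ a.1 ∧ (↑a.2.2.1 : Set ι) ⊆ Z ∧
    (∀ b i, cd x b a.2.2.2.1 i ≠ 0 → i ∈ Z) ∧ ∃ q : ℚ, ∀ p' ∈ O a, |F p' - q| ≤ ε / 2}
  have hI : I.Countable := by
    have hsub : I ⊆ ⋃ N : ℕ, (Sigma.mk N) ''
        ((Set.univ : Set ((Fin N → Bool) → Bool → ZMod 2)) ×ˢ
          ({R : Finset ι | (↑R : Set ι) ⊆ Z} ×ˢ
            ({u : PG x | ∀ b a, cd x b u a ≠ 0 → a ∈ Z} ×ˢ
              (Set.univ : Set (Finset (Fin N → Bool)))))) := by
      rintro ⟨N, e, R, u, S⟩ ⟨h1, h2, h3, h4⟩
      exact Set.mem_iUnion.2 ⟨N, _, ⟨Set.mem_univ _, h2, h3, Set.mem_univ _⟩, rfl⟩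
    refine Set.Countable.mono hsub (Set.countable_iUnion fun N => ?_)
    exact Set.Countable.image ((Set.to_countable _).prod ((countable_finset Z hZ).prod
      ((countable_PG x Z hZ).prod (Set.to_countable _)))) _
  have hne : I.Nonempty := by
    obtain ⟨N, e, R, u, S, q, h1, h2, h3, _, h5⟩ := hcore 0
    exact ⟨⟨N, e, R, u, S⟩, h1, h2, h3, q, h5⟩
  obtain ⟨s, hs⟩ := hI.exists_eq_range hne
  have hsI : ∀ n, s n ∈ I := fun n => by rw [hs]; exact Set.mem_range_self n
  have hrect : ∀ n g h' g1 h1, co false g + co true h1 ∈ O (s n) →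
      co false g1 + co true h' ∈ O (s n) → co false g + co true h' ∈ O (s n) := by
    intro n g h' g1 h1 hp hp'
    have := rect_OS (s n).1 (hsI n).1 (s n).2.1 (s n).2.2.1 (s n).2.2.2.1 (s n).2.2.2.2
      (co false g + co true h1) (co false g1 + co true h') hp hp'
    rw [hprf, hprt] at this
    exact this
  have hOc : ∀ n, IsClopen (O (s n)) := fun n => isClopen_OS h _ _ _ _ _
  refine ⟨fun n => {g | ∃ h', co false g + co true h' ∈ O (s n)},
    fun n => {h' | ∃ g, co false g + co true h' ∈ O (s n)}, ?_, ?_, ?_, ?_⟩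
  · intro n
    by_cases hex : ∃ g0 h0, co false g0 + co true h0 ∈ O (s n)
    · obtain ⟨g0, h0, h00⟩ := hex
      have : {g | ∃ h', co false g + co true h' ∈ O (s n)} =
          (fun g => co false g + co true h0) ⁻¹' (O (s n)) := by
        ext g
        constructor
        · rintro ⟨h1, hh⟩
          exact hrect n g h0 g0 h1 hh h00
        · intro hh
          exact ⟨h0, hh⟩
      show IsClopen {g | ∃ h', co false g + co true h' ∈ O (s n)}
      rw [this]
      exact (hOc n).preimage ((hcoc false).add continuous_const)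
    · have : {g | ∃ h', co false g + co true h' ∈ O (s n)} = ∅ := by
        ext g
        constructor
        · rintro ⟨h1, hh⟩
          exact (hex ⟨g, h1, hh⟩).elim
        · intro hh
          exact hh.elim
      show IsClopen {g | ∃ h', co false g + co true h' ∈ O (s n)}
      rw [this]
      exact isClopen_empty
  · intro n
    by_cases hex : ∃ g0 h0, co false g0 + co true h0 ∈ O (s n)
    · obtain ⟨g0, h0, h00⟩ := hex
      have : {h' | ∃ g, co false g + co true h' ∈ O (s n)} =
          (fun h' => co false g0 + co true h') ⁻¹' (O (s n)) := by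
        ext h'
        constructor
        · rintro ⟨g1, hh⟩
          exact hrect n g0 h' g1 h0 h00 hh
        · intro hh
          exact ⟨g0, hh⟩
      show IsClopen {h' | ∃ g, co false g + co true h' ∈ O (s n)}
      rw [this]
      exact (hOc n).preimage (continuous_const.add (hcoc true))
    · have : {h' | ∃ g, co false g + co true h' ∈ O (s n)} = ∅ := by
        ext h'
        constructor
        · rintro ⟨g1, hh⟩
          exact (hex ⟨g1, h', hh⟩).elim
        · intro hh
          exact hh.elim
      show IsClopen {h' | ∃ g, co false g + co true h' ∈ O (s n)}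
      rw [this]
      exact isClopen_empty
  · intro g h'
    obtain ⟨N, e, R, u, S, q, h1, h2, h3, h4, h5⟩ := hcore (co false g + co true h')
    have hmem : (⟨N, e, R, u, S⟩ : T) ∈ I := ⟨h1, h2, h3, q, h5⟩
    rw [hs] at hmem
    obtain ⟨n, hn⟩ := hmem
    have h4' : co false g + co true h' ∈ O (s n) := by
      rw [hn]
      exact h4
    exact ⟨n, ⟨h', h4'⟩, ⟨g, h4'⟩⟩
  · rintro n a ⟨h1, ha⟩ b ⟨g1, hb⟩ a' ⟨h2, ha'⟩ b' ⟨g2, hb'⟩
    obtain ⟨_, _, _, q, hq⟩ := hsI n
    have e1 := hq _ (hrect n a b g1 h1 ha hb)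
    have e2 := hq _ (hrect n a' b' g2 h2 ha' hb')
    rw [hFF] at e1 e2
    rw [abs_le] at e1 e2 ⊢
    constructor
    · linarith [e1.1, e1.2, e2.1, e2.2]
    · linarith [e1.1, e1.2, e2.1, e2.2]

end MP909
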