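import Mathlib

namespace MP909
open Function Topology

/-- `G` is ℝ-factorizable: every continuous real function on `G` factors through a continuous
homomorphism to a second-countable topological group -/
def RFactorizable.{u} (G : Type) [Group G] [TopologicalSpace G] : Prop :=
  ∀ f : G → ℝ, Continuous f → ∃ (K : Type u) (_ : Group K) (_ : TopologicalSpace K)
    (_ : IsTopologicalGroup K) (_ : SecondCountableTopology K) (π : G →* K) (g : K → ℝ),
    Continuous π ∧ Continuous g ∧ ∀ a, f a = g (π a)

/-- `X × Y` is multiplicatively ℝ-factorizable: every continuous real function on `X × Y` factors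
through a product of continuous maps to second-countable spaces -/
def MultRFactorizable (X Y : Type) [TopologicalSpace X] [TopologicalSpace Y] : Prop :=
  ∀ f : X × Y → ℝ, Continuous f → ∃ (X' Y' : Type) (_ : TopologicalSpace X')
    (_ : TopologicalSpace Y') (_ : SecondCountableTopology X') (_ : SecondCountableTopology Y')
    (g : X → X') (g' : Y → Y') (h : X' × Y' → ℝ), Continuous g ∧ Continuous g' ∧ Continuous h ∧
    ∀ z, f z = h (g z.1, g' z.2)

end MP909
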