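import Pool.Agent.Lib_MP_909c8f.Fn
import Pool.Agent.Lib_MP_909c8f.Corner
import Pool.Agent.Lib_MP_909c8f.Stmt

namespace MP909
open Function Topology
variable {ι : Type} {x : ι → Cn}

/-- the element with one coordinate `single i 1` and the other coordinate `0` -/
noncomputable def lre (x : ι → Cn) (a : Bool) (i : ι) : PG x :=
  fun c => if c = a then Finsupp.single i 1 else 0

theorem cd_lre (a : Bool) (i : ι) (c : Bool) :
    cd x c (lre x a i) = if c = a then Finsupp.single i 1 else 0 := rfl

theorem lre_add (i j : ι) : lre x false i + lre x true j = el x i j := by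
  funext c
  cases c
  · change (lre x false i) false + (lre x true j) false = (el x i j) false
    simp [lre, el]
  · change (lre x false i) true + (lre x true j) true = (el x i j) true
    simp [lre, el]

theorem lre_mem (b a : Bool) {i : ι} (hi : x i 0 = b) : lre x a i ∈ GG x b := by
  classical
  rw [mem_GG]
  funext c
  change cd x c (pr x b (lre x a i)) = cd x c (lre x a i)
  ext k
  rw [cd_pr, cd_lre]
  by_cases hk : k = i
  · rw [hk, if_pos hi]
  · have h0 : (if c = a then Finsupp.single i (1 : ZMod 2) else 0) k = 0 := by
      split_ifs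
      · exact Finsupp.single_eq_of_ne hk
      · rfl
    rw [h0, ite_self]

/-- PROOF. Let `f a = fn x (a : PG x)` on `Multiplicative (GG x b)`, continuous.  Suppose
`f = g ∘ π`.  Let `S = {i | x i 0 = b}`, uncountable by `h.unc (fun _ => b) 1`.
For `i ∈ S` let `l i` be the element of `GG x b` with left coordinate `single i 1` and right
coordinate `0`, `r i` the one with left coordinate `0` and right coordinate `single i 1`
(in `GG x b` by `pg_ext`, `cd_pr`); for `i ∉ S` put `l i = r i = 0`.  `l i + r j = el x i j`.
Apply `corner` to `a i = π (ofAdd (l i))`, `b i = π (ofAdd (r i))`: it gives `i ≠ j` with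
`1/2 < fn x (el x i j)` and `1/2 < fn x (el x j i)`, contradiction to `fn_anti`. -/
theorem nonR.{u} (h : Good x) (b : Bool) : ¬ RFactorizable.{u} (Multiplicative (GG x b)) := by
  classical
  intro hR
  have hcf : Continuous (fn x) := continuous_fn h.inj h.dense
  let f : Multiplicative (GG x b) → ℝ := fun a => fn x ((Multiplicative.toAdd a : GG x b) : PG x)
  have hf : Continuous f := hcf.comp (continuous_subtype_val.comp continuous_toAdd)
  obtain ⟨K, _, _, _, _, π, g, hπ, hg, hfg⟩ := hR f hf
  let S : Set ι := {i | x i 0 = b}
  have hS : ¬ S.Countable := by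
    have h1 := h.unc (fun _ => b) 1
    have e : {i | Agr (x i) (fun _ => b) 1} = S := by
      ext i
      constructor
      · intro hi
        exact hi 0 Nat.one_pos
      · intro hi k hk
        have : k = 0 := by omega
        rw [this]
        exact hi
    rw [e] at h1
    exact h1
  let l : Bool → ι → GG x b := fun a i =>
    if hi : x i 0 = b then ⟨lre x a i, lre_mem b a hi⟩ else 0
  have hl : ∀ a i, i ∈ S → ((l a i : GG x b) : PG x) = lre x a i := by
    intro a i hi
    have hi' : x i 0 = b := hi
    simp only [l, dif_pos hi']
  have key : ∀ i ∈ S, ∀ j ∈ S,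
      g (π (Multiplicative.ofAdd (l false i)) * π (Multiplicative.ofAdd (l true j))) =
        fn x (el x i j) := by
    intro i hi j hj
    rw [← map_mul, ← ofAdd_add, ← hfg]
    change fn x ((l false i + l true j : GG x b) : PG x) = _
    rw [AddSubgroup.coe_add, hl false i hi, hl true j hj, lre_add]
  obtain ⟨i, hi, j, hj, hne, h1, h2⟩ := corner
    (fun i => π (Multiplicative.ofAdd (l false i))) (fun i => π (Multiplicative.ofAdd (l true i)))
    g hg S hS (fun i hi => by
      rw [key i hi i hi]
      exact fn_self i)
  rw [key i hi j hj] at h1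
  rw [key j hj i hi] at h2
  exact hne (fn_anti h.inj i j h1 h2)

end MP909
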