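import Pool.Agent.Lib_MP_909c8f.Defs

namespace MP909
open Function Topology
variable {ι : Type} (x : ι → Cn)

/-- the element with coordinates `single a (s b)` -/
noncomputable def sg (a : ι) (s : Bool → ZMod 2) : PG x := fun b => Finsupp.single a (s b)

theorem cd_sg (a : ι) (s : Bool → ZMod 2) (b : Bool) :
    cd x b (sg x a s) = Finsupp.single a (s b) := rfl

variable {x}

/-- moving a support point `x a` to a nearby point on the side which does no harm.
Here the coordinate `b` is moved to a point `x a'` which agrees with `x a` below some `n ≥ M`, and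
`x a n = b`, `x a' n = !b`  (so for `b = false` the point `x a'` is to the right of `x a`, for
`b = true` it is to the left).
PROOF. `h.nec a M b` gives `n ≥ M` with `x a n = b`.  Density for the sequence `fl (x a) n` at
level `n+1` gives `a'` with `Agr (x a') (fl (x a) n) (n+1)`. -/
theorem exists_near (h : Good x) (a : ι) (b : Bool) (M : ℕ) :
    ∃ a' n, M ≤ n ∧ Agr (x a') (x a) n ∧ x a n = b ∧ x a' n = !b := by
  obtain ⟨n, hn, hx⟩ := h.nec a M b
  obtain ⟨a', ha'⟩ := h.dense (fl (x a) n) (n + 1)
  refine ⟨a', n, hn, (ha'.mono (Nat.le_succ n)).trans (fl_agr _ _), hx, ?_⟩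
  rw [ha' n (Nat.lt_succ_self n), fl_at, hx]

/-- PROOF. If `Fr x p d` take `k = 0`.  Otherwise `d = x a` for some `a` (unique, `h.inj`).
`sep h.inj (insert a R)` gives `M1` such that `i ∈ R`, `Agr (x i) (x a) M1` imply `i = a`.
Let `M = max (max M1 m) N`.  `exists_near` for `b = false`, `b = true` gives `a0, a1`.
Let `k false = single a (p false a) + single a0 (p false a)`,
`k true = single a (p true a) + single a1 (p true a)`; i.e.
`k = sg x a s + (fun b => single (a_b) (s b))` with `s b = cd x b p a`.
* the support of `k` is in the cone of `x a` of level `M ≥ N`;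
* parities of level `n ≤ M` of `k` vanish: both points `x a`, `x a_b` are in the cone or both are
  outside (they agree below `M`), and `s b + s b = 0` in `ZMod 2`;
* `Cp x k (x a) 0`: at step `n`, the relevant coordinate is `b = !(x a n)`.  `x a` is not in the
  sibling.  `x a_b` is in the sibling of `x a` at step `n` iff `n` is the first place where
  `x a_b` and `x a` differ, that is the `n` of `exists_near`, but there `x a n = b`.  So
  `Cq` holds: use `ph_single` (both `single`s): if `n ≤ n_b`... precisely
  `Agr (x a_b) (x a) n ↔ Agr (x a_b) (x a) (n+1)` for every `n` with `!(x a n) = b`, since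
  `Agr (x a_b) (x a) n` iff `n ≤ n_b`, and `n = n_b` is excluded.
* `Cp x k (x i) 0` for `i ∈ R`, `i ≠ a`: steps `n < M` by `Cq_of_low`; for `n ≥ M` no support
  point of `k` is in the cone of `x i` of level `n` (such a point agrees with `x a` below `M`, so
  `x i` would), `Cq_of_free`.
So `k ∈ L x R m`, and `Cp x (p + k) d N` by `Cp_add` (`Cp_mono`).
* `Fr x (p + k) d`: `x i = d = x a` gives `i = a`, and
  `cd x b (p + k) a = s b + s b + (single a_b (s b)) a = 0` because `a_b ≠ a`. -/
theorem pert (h : Good x) (p : PG x) (d : Cn) (N : ℕ) (hp : Cp x p d N) (R : Finset ι) (m : ℕ) :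
    ∃ k ∈ L x R m, (∀ b i, cd x b k i ≠ 0 → Agr (x i) d N) ∧ Cp x (p + k) d N ∧
      Fr x (p + k) d := by
  classical
  by_cases hF : Fr x p d
  · refine ⟨0, (L x R m).zero_mem, fun b i hi => ?_, ?_, ?_⟩
    · rw [map_zero] at hi
      exact absurd rfl hi
    · rw [add_zero]; exact hp
    · rw [add_zero]; exact hF
  unfold Fr at hF
  push Not at hF
  obtain ⟨b0, a, ha, rfl⟩ := hF
  obtain ⟨M1, hM1⟩ := sep h.inj (insert a R)
  obtain ⟨M, hM⟩ : ∃ M, M = max (max M1 m) N := ⟨_, rfl⟩
  have hM1M : M1 ≤ M := by rw [hM]; exact (le_max_left _ _).trans (le_max_left _ _)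
  have hmM : m ≤ M := by rw [hM]; exact (le_max_right _ _).trans (le_max_left _ _)
  have hNM : N ≤ M := by rw [hM]; exact le_max_right _ _
  choose a' n' hn' hag hxa hxa' using fun b => exists_near h a b M
  have hne : ∀ b, a' b ≠ a := by
    intro b hb
    have h1 := hxa' b
    rw [hb, hxa b] at h1
    revert h1
    cases b <;> decide
  let k : PG x := fun b =>
    Finsupp.single a (cd x b p a) + Finsupp.single (a' b) (cd x b p a)
  have hcd : ∀ b, cd x b k = Finsupp.single a (cd x b p a) +
      Finsupp.single (a' b) (cd x b p a) := fun b => rfl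
  have hsupp : ∀ b i, cd x b k i ≠ 0 → Agr (x i) (x a) M := by
    intro b i hi
    by_cases h1 : i = a
    · rw [h1]; exact Agr.refl _ _
    · by_cases h2 : i = a' b
      · rw [h2]; exact (hag b).mono (hn' b)
      · exfalso
        apply hi
        rw [hcd, Finsupp.add_apply, Finsupp.single_eq_of_ne h1, Finsupp.single_eq_of_ne h2,
          add_zero]
  have hz : ∀ z : ZMod 2, z + z = 0 := fun z => CharTwo.add_self_eq_zero z
  have hpa : ∀ b c n, n ≤ M → pa x b c n k = 0 := by
    intro b c n hn
    rw [pa_apply, hcd, map_add, ph_single, ph_single]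
    have h1 : Agr (x (a' b)) c n ↔ Agr (x a) c n := by
      have h2 : Agr (x (a' b)) (x a) n := (hag b).mono (hn.trans (hn' b))
      exact ⟨fun h3 => h2.symm.trans h3, fun h3 => h2.trans h3⟩
    by_cases h2 : Agr (x a) c n
    · rw [if_pos h2, if_pos (h1.2 h2), hz]
    · rw [if_neg h2, if_neg (fun h3 => h2 (h1.1 h3)), add_zero]
  have hCa : Cp x k (x a) 0 := by
    intro n _
    unfold Cq
    obtain ⟨b, hb⟩ : ∃ b, b = !(x a n) := ⟨_, rfl⟩
    rw [← hb, pa_apply, pa_apply, hcd, map_add, map_add, ph_single, ph_single, ph_single,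
      ph_single, if_pos (Agr.refl _ _), if_pos (Agr.refl _ _)]
    have h1 : Agr (x (a' b)) (x a) n ↔ Agr (x (a' b)) (x a) (n + 1) := by
      constructor
      · intro h2
        have h3 : n ≤ n' b := by
          by_contra h4
          have h5 := h2 (n' b) (not_le.1 h4)
          rw [hxa' b, hxa b] at h5
          revert h5
          cases b <;> decide
        have h4 : n ≠ n' b := by
          intro h5
          have h6 := hxa b
          rw [← h5] at h6
          rw [h6] at hb
          revert hb
          cases b <;> decide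
        exact (hag b).mono (by omega)
      · intro h2
        exact h2.mono (Nat.le_succ n)
    by_cases h2 : Agr (x (a' b)) (x a) n
    · rw [if_pos h2, if_pos (h1.1 h2)]
    · rw [if_neg h2, if_neg (fun h3 => h2 (h1.2 h3))]
  have hkL : k ∈ L x R m := by
    refine (mem_L x).2 ⟨fun b c n hn => hpa b c n (hn.trans hmM), fun i hi => ?_⟩
    by_cases hia : i = a
    · rw [hia]; exact hCa
    · intro n _
      rcases lt_or_ge n M with hn | hn
      · exact Cq_of_low x hpa hn
      · apply Cq_of_free
        intro b j hj hA
        exfalso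
        apply hia
        apply hM1 i (Finset.mem_insert_of_mem hi) a (Finset.mem_insert_self a R)
        have h1 := (hA.mono hn).symm.trans (hsupp b j hj)
        exact h1.mono hM1M
  refine ⟨k, hkL, fun b i hi => (hsupp b i hi).mono hNM, Cp_add x hp
    (Cp_mono x (Nat.zero_le _) hCa), ?_⟩
  intro b i hi hxi
  have hia : i = a := h.inj hxi
  subst hia
  apply hi
  rw [map_add, hcd, Finsupp.add_apply, Finsupp.add_apply, Finsupp.single_eq_same,
    Finsupp.single_eq_of_ne (hne b).symm, add_zero, hz]

end MP909
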