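import Pool.Agent.Lib_MP_909c8f.LDefs

namespace MP909
open Function Topology

theorem isOpen_cone (c : Cn) (n : ℕ) : IsOpen {z : Cn | Agr z c n} := by
  have h : {z : Cn | Agr z c n} = ⋂ k ∈ Finset.range n, {z : Cn | z k = c k} := by
    ext z
    simp [Agr]
  rw [h]
  refine isOpen_biInter_finset fun k _ => ?_
  have hc : Continuous (fun z : Cn => z k) := continuous_apply k
  exact hc.isOpen_preimage {c k} (isOpen_discrete _)

/-- the cones form a base -/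
theorem cone_sub {U : Set Cn} (hU : IsOpen U) {z : Cn} (hz : z ∈ U) :
    ∃ n, ∀ z', Agr z' z n → z' ∈ U := by
  rw [isOpen_pi_iff] at hU
  obtain ⟨I, u, hI, hIU⟩ := hU z hz
  refine ⟨I.sup id + 1, fun z' hz' => hIU ?_⟩
  intro k hk
  have : z' k = z k := hz' k (Nat.lt_succ_of_le (Finset.le_sup (f := id) hk))
  rw [this]
  exact (hI k hk).2

theorem dense_compl_point (z0 : Cn) : Dense ({z0}ᶜ : Set Cn) := by
  rw [dense_iff_inter_open]
  rintro U hU ⟨z, hz⟩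
  obtain ⟨n, hn⟩ := cone_sub hU hz
  by_cases h : z = z0
  · refine ⟨fl z n, hn _ (fl_agr z n), ?_⟩
    intro h2
    have h3 : fl z n n = z n := by rw [Set.mem_singleton_iff.1 h2, h]
    rw [fl_at] at h3
    revert h3
    cases z n <;> decide
  · exact ⟨z, hz, h⟩

theorem open_inf (k : ℕ) (v : Bool) : IsOpen {z : Cn | ∃ n', k ≤ n' ∧ z n' = v} := by
  have h : {z : Cn | ∃ n', k ≤ n' ∧ z n' = v} = ⋃ n' : ℕ, ⋃ _ : k ≤ n', {z : Cn | z n' = v} := by
    ext z; simp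
  rw [h]
  refine isOpen_iUnion fun n' => isOpen_iUnion fun _ => ?_
  have hc : Continuous (fun z : Cn => z n') := continuous_apply n'
  exact hc.isOpen_preimage {v} (isOpen_discrete _)

theorem dense_inf (k : ℕ) (v : Bool) : Dense {z : Cn | ∃ n', k ≤ n' ∧ z n' = v} := by
  rw [dense_iff_inter_open]
  rintro U hU ⟨z, hz⟩
  obtain ⟨n, hn⟩ := cone_sub hU hz
  refine ⟨Function.update z (max n k) v, hn _ ?_, max n k, le_max_right _ _, by simp⟩
  intro i hi
  exact Function.update_of_ne (by have := le_max_left n k; omega) _ _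

theorem step (𝒟 : Set (Set Cn)) (h𝒟 : 𝒟.Countable) (ho : ∀ D ∈ 𝒟, IsOpen D) (hd : ∀ D ∈ 𝒟, Dense D)
    (P : Set Cn) (hP : P.Countable) (c : Cn) (n : ℕ) :
    ∃ z, Agr z c n ∧ z ∉ P ∧ (∀ D ∈ 𝒟, z ∈ D) ∧ ∀ k v, ∃ n', k ≤ n' ∧ z n' = v := by
  have hall : Dense (⋂₀ (𝒟 ∪ ((fun z0 : Cn => ({z0}ᶜ : Set Cn)) '' P) ∪
      Set.range (fun q : ℕ × Bool => {z : Cn | ∃ n', q.1 ≤ n' ∧ z n' = q.2}))) := by
    apply dense_sInter_of_isOpen
    · rintro D ((hD | ⟨z0, _, rfl⟩) | ⟨q, rfl⟩)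
      · exact ho D hD
      · exact isOpen_compl_singleton
      · exact open_inf _ _
    · exact (h𝒟.union (hP.image _)).union (Set.countable_range _)
    · rintro D ((hD | ⟨z0, _, rfl⟩) | ⟨q, rfl⟩)
      · exact hd D hD
      · exact dense_compl_point z0
      · exact dense_inf _ _
  obtain ⟨z, hz1, hz2⟩ := hall.inter_open_nonempty _ (isOpen_cone c n) ⟨c, Agr.refl c n⟩
  refine ⟨z, hz1, ?_, ?_, ?_⟩
  · intro hzP
    exact hz2 _ (Or.inl (Or.inr ⟨z, hzP, rfl⟩)) rfl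
  · intro D hD
    exact hz2 D (Or.inl (Or.inl hD))
  · intro k v
    exact hz2 _ (Or.inr ⟨(k, v), rfl⟩)

end MP909
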