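import Pool.Agent.Lib_MP_909c8f.Pert

namespace MP909
open Function Topology
variable {ι : Type} (x : ι → Cn)

/-- the element with fixed part `u` and variable part of pattern `σ` at the places `t` -/
noncomputable def pT (u : PG x) {j : ℕ} (σ : Fin j → Bool → ZMod 2) (t : Fin j → ι) : PG x :=
  u + ∑ i, sg x (t i) (σ i)

open Classical in
/-- the tuples `t` for which the oscillation of `F` at `pT u σ t` is controlled -/
def QT (F : PG x → ℝ) (ε : ℝ) (R : Finset ι) (u : PG x) {j : ℕ} (σ : Fin j → Bool → ZMod 2)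
    (m : ℕ) (q : ℚ) : Set (Fin j → ι) :=
  {t | Injective t ∧ ∀ k ∈ L x (R ∪ Finset.univ.image t) m, |F (pT x u σ t + k) - q| < ε}

/-- the clopen rectangles -/
def OS (N : ℕ) (e : (Fin N → Bool) → Bool → ZMod 2) (R : Finset ι) (u : PG x)
    (S : Finset (Fin N → Bool)) : Set (PG x) :=
  {p | (∀ b c, pa x b c N p = e (rs N c) b) ∧ (∀ i ∈ R, Cp x (p - u) (x i) N) ∧
    ∀ s ∈ S, ∃ d, rs N d = s ∧ Cp x p d N}

end MP909
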