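import Pool.Agent.Lib_MP_909c8f.LDefs

namespace MP909
open Function Topology

/-- PROOF. `#IX = ℵ₀ * 2^ℵ₀ = 2^ℵ₀`: `Cardinal.mk_prod`, `Cardinal.mk_pi`, `Cardinal.continuum`
(`2 ^ ℵ₀ = 𝔠`), `Cardinal.mul_eq_right`/`Cardinal.aleph0_mul_continuum`. -/
theorem mk_IX : Cardinal.mk IX = Cardinal.continuum := by
  have h1 : Cardinal.mk Cn = Cardinal.continuum := by
    simp [Cn, Cardinal.mk_pi]
  have h2 : Cardinal.mk ((Σ m : ℕ, (Fin m → Bool)) × ℕ) = Cardinal.aleph0 := by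
    have : Countable ((Σ m : ℕ, (Fin m → Bool)) × ℕ) := inferInstance
    have : Infinite ((Σ m : ℕ, (Fin m → Bool)) × ℕ) := by
      have : Nonempty (Σ m : ℕ, (Fin m → Bool)) := ⟨⟨0, fun _ => false⟩⟩
      exact inferInstance
    exact Cardinal.mk_eq_aleph0 _
  have : Cardinal.mk IX = Cardinal.mk ((Σ m : ℕ, (Fin m → Bool)) × ℕ) * Cardinal.mk Cn := by
    simp only [IX]
    rw [Cardinal.mk_prod]
    simp
  rw [this, h1, h2, Cardinal.aleph0_mul_continuum]

/-- PROOF. `Cardinal.ord_eq` gives a well-order `r` with `ord #α = type r`; initial segments have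
cardinality `< ℵ₁` (`Cardinal.card_typein_lt`-like), hence `≤ ℵ₀`
(`Cardinal.lt_aleph_one_iff`/`Order.lt_succ_iff`, `Cardinal.mk_le_aleph0_iff`,
`Set.countable_coe_iff`). -/
theorem exists_wo {α : Type} (hα : Cardinal.mk α = Cardinal.aleph 1) :
    ∃ r : α → α → Prop, IsWellOrder α r ∧ ∀ a, {b | r b a}.Countable := by
  obtain ⟨r, hr, ho⟩ := Cardinal.exists_ord_eq α
  refine ⟨r, hr, fun a => ?_⟩
  have h1 : Cardinal.mk {b | r b a} < Cardinal.mk α := by
    exact Cardinal.card_typein_lt (r := r) a ho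
  rw [hα] at h1
  have h2 : Cardinal.mk {b | r b a} ≤ Cardinal.aleph0 := by
    rw [← Cardinal.succ_aleph0] at h1
    exact Order.lt_succ_iff.mp h1
  exact Set.countable_coe_iff.mp (Cardinal.mk_le_aleph0_iff.mp h2)

end MP909
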